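import Pool.Agent.Lib.ALLG.Defs
import Pool.Agent.Lib.ALLZO.NFD

/-!
# TANK G: port of `Lib/ALLZO/NFD.lean` to the frames `ALLG.FR` (no condition `full`)
-/

set_option autoImplicit false

open Polynomial

namespace Pool.Agent.ALLG

open Pool.Agent.ALLZO
open Pool.Agent.TAO (Ctx0)
open Pool.Agent.TAO (OVal)
open Pool.Agent.TAO (VPos)
open Pool.Agent.ALLO (locv)
open Pool.Agent.LU1 (FracIs)
open Pool.Agent.LU1.NFA (mem_frac isAlgebraic_of_frac)
open Pool.Agent.TAO (CtxR)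
open Pool.Agent.TAO (Ctx0)

universe u w

variable {k Ω : Type u} [Field k] [Field Ω] [Algebra k Ω]
  {𝕂 : Type w} [Field 𝕂] [LinearOrder 𝕂] [IsStrictOrderedRing 𝕂] {v : OVal 𝕂 Ω} {r D n : ℕ}

section FR

variable (B : FR k v r D)

theorem fr_χ_zero : B.χ 0 = 1 := by
  have h1 := B.χ_add 0 B.Γ.zero_mem 0 B.Γ.zero_mem
  rw [add_zero] at h1
  have h2 := B.χ_ne 0 B.Γ.zero_mem
  exact (mul_left_cancel₀ h2 (by rw [mul_one]; exact h1)).symm

theorem fr_χ_neg {γ : 𝕂} (h : γ ∈ B.Γ) : B.χ (-γ) = (B.χ γ)⁻¹ := by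
  refine eq_inv_of_mul_eq_one_left ?_
  rw [← B.χ_add _ (B.Γ.neg_mem h) _ h, neg_add_cancel, fr_χ_zero]

theorem fr_χ_nsmul {γ : 𝕂} (h : γ ∈ B.Γ) (m : ℕ) : B.χ (m * γ) = B.χ γ ^ m := by
  induction m with
  | zero => simp [fr_χ_zero B]
  | succ m ih =>
    have h1 : (m : 𝕂) * γ ∈ B.Γ := by
      rw [← nsmul_eq_mul]
      exact B.Γ.nsmul_mem h _
    rw [Nat.cast_succ, add_mul, one_mul, B.χ_add _ h1 _ h, ih, pow_succ]

theorem fr_χ_zsmul {γ : 𝕂} (h : γ ∈ B.Γ) (m : ℤ) : B.χ (m * γ) = B.χ γ ^ m := by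
  cases m with
  | ofNat m => simpa using fr_χ_nsmul B h m
  | negSucc m =>
    have h1 : ((m + 1 : ℕ) : 𝕂) * γ ∈ B.Γ := by
      rw [← nsmul_eq_mul]
      exact B.Γ.nsmul_mem h _
    have h2 : ((Int.negSucc m : ℤ) : 𝕂) * γ = -(((m + 1 : ℕ) : 𝕂) * γ) := by
      rw [Int.negSucc_eq]
      push_cast
      ring
    rw [h2, fr_χ_neg B h1, fr_χ_nsmul B h, zpow_negSucc]

theorem fr_vpos_χ {γ : 𝕂} (h : γ ∈ B.Γ) (h0 : 0 < γ) : VPos v (B.χ γ) := by
  intro _
  rw [B.χ_val γ h]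
  exact h0

theorem fr_exists_const (h : Ctx0 k v n) {f : Ω} (hf : f ∈ B.R) :
    ∃ c : k, VPos v (f - algebraMap k Ω c) ∧ f - algebraMap k Ω c ∈ B.R := by
  obtain ⟨c, hc⟩ := ctx_residue h (B.nonneg f hf)
  exact ⟨c, hc, B.R.sub_mem hf (B.R.algebraMap_mem c)⟩

end FR

theorem χ_sum (B : FR k v r D) {ι : Type*} (s : Finset ι) (u : ι → 𝕂) (hu : ∀ i, u i ∈ B.Γ)
    (n : ι → ℤ) : (∑ i ∈ s, (n i : 𝕂) * u i) ∈ B.Γ ∧
      B.χ (∑ i ∈ s, (n i : 𝕂) * u i) = ∏ i ∈ s, B.χ (u i) ^ n i := by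
  classical
  induction s using Finset.induction_on with
  | empty => exact ⟨by simp, by simp [fr_χ_zero B]⟩
  | insert i s hi ih =>
    have h1 : (n i : 𝕂) * u i ∈ B.Γ := by
      rw [← zsmul_eq_mul]; exact B.Γ.zsmul_mem (hu i) _
    rw [Finset.sum_insert hi, Finset.prod_insert hi]
    exact ⟨B.Γ.add_mem h1 ih.1, by rw [B.χ_add _ h1 _ ih.1, fr_χ_zsmul B (hu i), ih.2]⟩

/-- Only finitely many monomials are used. -/
theorem adjoin_finite (B : FR k v r D) (F : Set Ω) {f : Ω}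
    (hf : f ∈ Algebra.adjoin k (F ∪ B.χ '' {γ | γ ∈ B.Γ ∧ 0 ≤ γ})) :
    ∃ S : Finset 𝕂, (∀ γ ∈ S, γ ∈ B.Γ ∧ 0 < γ) ∧
      f ∈ Algebra.adjoin k (F ∪ B.χ '' (S : Set 𝕂)) := by
  classical
  have mono : ∀ {S T : Finset 𝕂}, S ⊆ T → Algebra.adjoin k (F ∪ B.χ '' (S : Set 𝕂)) ≤
      Algebra.adjoin k (F ∪ B.χ '' (T : Set 𝕂)) := fun h =>
    Algebra.adjoin_mono (Set.union_subset_union_right _ (Set.image_mono (by exact_mod_cast h)))
  have hun : ∀ {S T : Finset 𝕂}, (∀ γ ∈ S, γ ∈ B.Γ ∧ 0 < γ) → (∀ γ ∈ T, γ ∈ B.Γ ∧ 0 < γ) →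
      ∀ γ ∈ S ∪ T, γ ∈ B.Γ ∧ 0 < γ := by
    intro S T h1 h2 γ hγ
    rcases Finset.mem_union.1 hγ with h | h
    · exact h1 γ h
    · exact h2 γ h
  induction hf using Algebra.adjoin_induction with
  | mem x hx =>
    rcases hx with hx | ⟨γ, ⟨hγ, h0⟩, rfl⟩
    · exact ⟨∅, by simp, Algebra.subset_adjoin (Or.inl hx)⟩
    · rcases h0.lt_or_eq with h1 | rfl
      · exact ⟨{γ}, by simp [hγ, h1], Algebra.subset_adjoin (Or.inr ⟨γ, by simp, rfl⟩)⟩
      · exact ⟨∅, by simp, by rw [fr_χ_zero B]; exact Subalgebra.one_mem _⟩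
  | algebraMap c => exact ⟨∅, by simp, Subalgebra.algebraMap_mem _ c⟩
  | add x y _ _ hx hy =>
    obtain ⟨S, hS, h1⟩ := hx
    obtain ⟨T, hT, h2⟩ := hy
    exact ⟨S ∪ T, hun hS hT, Subalgebra.add_mem _ (mono Finset.subset_union_left h1)
      (mono Finset.subset_union_right h2)⟩
  | mul x y _ _ hx hy =>
    obtain ⟨S, hS, h1⟩ := hx
    obtain ⟨T, hT, h2⟩ := hy
    exact ⟨S ∪ T, hun hS hT, Subalgebra.mul_mem _ (mono Finset.subset_union_left h1)
      (mono Finset.subset_union_right h2)⟩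

theorem locv_finite (B : FR k v r D) (F : Set Ω) {f : Ω}
    (hf : f ∈ locv v (Algebra.adjoin k (F ∪ B.χ '' {γ | γ ∈ B.Γ ∧ 0 ≤ γ}))) :
    ∃ S : Finset 𝕂, (∀ γ ∈ S, γ ∈ B.Γ ∧ 0 < γ) ∧
      f ∈ locv v (Algebra.adjoin k (F ∪ B.χ '' (S : Set 𝕂))) := by
  classical
  obtain ⟨a, ha, b, hb, h0, h1, rfl⟩ := hf
  obtain ⟨S, hS, h2⟩ := adjoin_finite B F ha
  obtain ⟨T, hT, h3⟩ := adjoin_finite B F hb
  refine ⟨S ∪ T, fun γ hγ => ?_, a, ?_, b, ?_, h0, h1, rfl⟩
  · rcases Finset.mem_union.1 hγ with h | h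
    · exact hS γ h
    · exact hT γ h
  · exact Algebra.adjoin_mono (Set.union_subset_union_right _ (Set.image_mono
      (by exact_mod_cast Finset.subset_union_left))) h2
  · exact Algebra.adjoin_mono (Set.union_subset_union_right _ (Set.image_mono
      (by exact_mod_cast Finset.subset_union_right))) h3

/-- Two frames of the same rank, one group contained in the other: the quotient is torsion. -/
theorem FR.tors {v' : OVal 𝕂 Ω} {D' : ℕ} {B : FR k v r D} {B₂ : FR k v' r D'}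
    (hΓ : ∀ γ ∈ B.Γ, γ ∈ B₂.Γ) : ∀ γ ∈ B₂.Γ, ∃ e : ℕ, 0 < e ∧ (e : 𝕂) * γ ∈ B.Γ := by
  intro γ hγ
  obtain ⟨X, hX, hXΓ, hsp⟩ := B.rk
  obtain ⟨X₂, hX₂, hXΓ₂, hsp₂⟩ := B₂.rk
  have hle : Submodule.span ℚ (Set.range X) ≤ Submodule.span ℚ (Set.range X₂) := by
    refine Submodule.span_le.2 ?_
    rintro _ ⟨i, rfl⟩
    exact hsp₂ _ (hΓ _ (hXΓ i))
  have hfin : FiniteDimensional ℚ (Submodule.span ℚ (Set.range X₂)) :=
    FiniteDimensional.span_of_finite ℚ (Set.finite_range X₂)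
  have heq : Submodule.span ℚ (Set.range X) = Submodule.span ℚ (Set.range X₂) := by
    refine Submodule.eq_of_le_of_finrank_eq hle ?_
    rw [finrank_span_eq_card hX, finrank_span_eq_card hX₂]
  have h1 : γ ∈ Submodule.span ℚ (Set.range X) := by
    rw [heq]
    exact hsp₂ γ hγ
  rw [Submodule.mem_span_range_iff_exists_fun] at h1
  obtain ⟨c, hc⟩ := h1
  refine ⟨∏ i, (c i).den, Finset.prod_pos fun i _ => (c i).den_pos, ?_⟩
  rw [← hc, Finset.mul_sum]
  refine B.Γ.sum_mem fun i _ => ?_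
  have h2 : ((∏ j, (c j).den : ℕ) : ℚ) * c i =
      (((∏ j ∈ Finset.univ.erase i, (c j).den : ℕ) : ℤ) * (c i).num : ℤ) := by
    rw [← Finset.mul_prod_erase Finset.univ (fun j => (c j).den) (Finset.mem_univ i)]
    push_cast
    rw [mul_comm ((c i).den : ℚ), mul_assoc, Rat.den_mul_eq_num]
  have h3 : ((∏ j, (c j).den : ℕ) : 𝕂) * c i • X i =
      (((∏ j ∈ Finset.univ.erase i, (c j).den : ℕ) : ℤ) * (c i).num : ℤ) • X i := by
    have h4 := congrArg (fun q : ℚ => (q : 𝕂) * X i) h2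
    rw [Rat.smul_def, zsmul_eq_mul, ← mul_assoc]
    push_cast at h4 ⊢
    exact h4
  rw [h3]
  exact B.Γ.zsmul_mem (hXΓ i) _

/-- `Γ` has rank `r`. -/
theorem fr_rank (_h : Ctx0 k v n) (B : FR k v r D) :
    ∃ X : Fin r → 𝕂, LinearIndependent ℚ X ∧ (∀ i, X i ∈ B.Γ) ∧
      ∀ γ ∈ B.Γ, γ ∈ Submodule.span ℚ (Set.range X) := B.rk

theorem fr_exists_basis (h : Ctx0 k v n) (_hr : 0 < r) (B : FR k v r D) (S : Finset 𝕂)
    (hS : ∀ γ ∈ S, γ ∈ B.Γ ∧ 0 < γ) : ∃ u : Fin r → 𝕂, GoodBasis B.Γ (S : Set 𝕂) u :=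
  perron B.Γ B.fg (fr_rank h B) S hS

/-- Lemma N: for every sufficiently fine basis `u` there is a noetherian frame
`locv k[G, x, y]` with `x = χ ∘ u` inside `B.R`, containing the given finite set `T`. -/
theorem fr_exists_NFD (h : Ctx0 k v n) (_hr : 0 < r) (B : FR k v r D) (T : Finset Ω)
    (hT : ∀ f ∈ T, f ∈ B.R) :
    ∃ (S0 : Finset 𝕂) (G : Finset Ω), (∀ γ ∈ S0, γ ∈ B.Γ ∧ 0 < γ) ∧ (∀ f ∈ G, f ∈ B.R) ∧
      T ⊆ G ∧ ∀ u : Fin r → 𝕂, GoodBasis B.Γ (S0 : Set 𝕂) u →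
        ∃ N : NFD k v r D, (∀ i, N.x i = B.χ (u i)) ∧ N.y = B.y ∧
          N.R = locv v (Algebra.adjoin k ((G : Set Ω) ∪ Set.range N.x ∪ Set.range B.y)) ∧
          N.R ≤ B.R ∧ ∀ f ∈ T, f ∈ N.R := by
  classical
  obtain ⟨F, hF⟩ := B.fgen
  have hFR : ∀ f ∈ F, f ∈ B.R := fun f hf => by
    rw [hF]; exact le_locv _ (Algebra.subset_adjoin (Or.inl hf))
  have hGR : ∀ f ∈ F ∪ T, f ∈ B.R := fun f hf => by
    rcases Finset.mem_union.1 hf with h1 | h1
    · exact hFR f h1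
    · exact hT f h1
  have key : ∀ g : {g // g ∈ F ∪ T}, ∃ (c : k) (γ : 𝕂) (a : Ω) (b : Fin D → Ω) (S : Finset 𝕂),
      γ ∈ B.Γ ∧ 0 < γ ∧ (∀ δ ∈ S, δ ∈ B.Γ ∧ 0 < δ) ∧
      a ∈ locv v (Algebra.adjoin k ((F : Set Ω) ∪ B.χ '' (S : Set 𝕂))) ∧
      (∀ j, b j ∈ locv v (Algebra.adjoin k ((F : Set Ω) ∪ B.χ '' (S : Set 𝕂)))) ∧
      (g : Ω) - algebraMap k Ω c = B.χ γ * a + ∑ j, B.y j * b j := by
    rintro ⟨g, hg⟩
    obtain ⟨c, hc, hcR⟩ := fr_exists_const B h (hGR g hg)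
    obtain ⟨γ, hγ, hγ0, a, ha, b, hb, e⟩ := B.gen _ hcR hc
    rw [hF] at ha
    have hb' : ∀ j, ∃ S : Finset 𝕂, (∀ γ ∈ S, γ ∈ B.Γ ∧ 0 < γ) ∧
        b j ∈ locv v (Algebra.adjoin k ((F : Set Ω) ∪ B.χ '' (S : Set 𝕂))) := by
      intro j
      have h1 := hb j
      rw [hF] at h1
      exact locv_finite B _ h1
    obtain ⟨S, hS, h1⟩ := locv_finite B _ ha
    choose S' hS' h2 using hb'
    refine ⟨c, γ, a, b, S ∪ Finset.univ.biUnion S', hγ, hγ0, fun δ hδ => ?_, ?_, fun j => ?_, e⟩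
    · rcases Finset.mem_union.1 hδ with h3 | h3
      · exact hS δ h3
      · obtain ⟨j, -, h4⟩ := Finset.mem_biUnion.1 h3
        exact hS' j δ h4
    · exact locv_mono (Algebra.adjoin_mono (Set.union_subset_union_right _ (Set.image_mono
        (by exact_mod_cast Finset.subset_union_left)))) h1
    · have h5 : S' j ⊆ S ∪ Finset.univ.biUnion S' := fun δ hδ =>
        Finset.mem_union_right _ (Finset.mem_biUnion.2 ⟨j, Finset.mem_univ _, hδ⟩)
      exact locv_mono (Algebra.adjoin_mono (Set.union_subset_union_right _ (Set.image_mono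
        (by exact_mod_cast h5)))) (h2 j)
  choose c γ a b S hγ hγ0 hS ha hb hab using key
  refine ⟨(F ∪ T).attach.biUnion fun g => insert (γ g) (S g), F ∪ T, ?_, hGR,
    Finset.subset_union_right, fun u hu => ?_⟩
  · intro δ hδ
    obtain ⟨g, -, hg⟩ := Finset.mem_biUnion.1 hδ
    rcases Finset.mem_insert.1 hg with rfl | hg
    · exact ⟨hγ g, hγ0 g⟩
    · exact hS g δ hg
  -- the frame
  set x : Fin r → Ω := fun i => B.χ (u i) with hx
  set A : Subalgebra k Ω := Algebra.adjoin k (((F ∪ T : Finset Ω) : Set Ω) ∪ Set.range x ∪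
    Set.range B.y) with hA
  have hxA : ∀ i, x i ∈ A := fun i => Algebra.subset_adjoin (Or.inl (Or.inr ⟨i, rfl⟩))
  have hyA : ∀ j, B.y j ∈ A := fun j => Algebra.subset_adjoin (Or.inr ⟨j, rfl⟩)
  have hGA : ∀ f ∈ F ∪ T, f ∈ A := fun f hf => Algebra.subset_adjoin (Or.inl (Or.inl hf))
  have hAR : A ≤ B.R := by
    refine Algebra.adjoin_le ?_
    rintro f ((hf | ⟨i, rfl⟩) | ⟨j, rfl⟩)
    · exact hGR f hf
    · exact B.χ_mem _ (hu.mem i) (hu.pos i).le
    · exact B.y_mem j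
  have hRR : locv v A ≤ B.R := locv_le hAR B.loc
  have hnon : ∀ f ∈ locv v A, v.Ge 0 f := fun f hf => B.nonneg f (hRR hf)
  -- monomials with natural exponents
  have hmon : ∀ n : Fin r → ℕ, B.χ (∑ i, (n i : 𝕂) * u i) ∈ A := by
    intro n
    have h1 := (χ_sum B Finset.univ u hu.mem fun i => (n i : ℤ)).2
    simp only [Int.cast_natCast] at h1
    rw [h1]
    exact Subalgebra.prod_mem _ fun i _ => by
      rw [zpow_natCast]; exact Subalgebra.pow_mem _ (hxA i) _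
  have hcone : ∀ δ : 𝕂, (∃ n : Fin r → ℕ, (∃ i, 0 < n i) ∧ δ = ∑ i, (n i : 𝕂) * u i) →
      ∃ i0, ∃ e ∈ A, B.χ δ = x i0 * e := by
    rintro δ ⟨n, ⟨i0, hn⟩, rfl⟩
    refine ⟨i0, B.χ (∑ i, ((Function.update n i0 (n i0 - 1)) i : 𝕂) * u i), hmon _, ?_⟩
    have h2 : ∑ i, (n i : 𝕂) * u i =
        u i0 + ∑ i, ((Function.update n i0 (n i0 - 1)) i : 𝕂) * u i := by
      rw [← Finset.add_sum_erase _ _ (Finset.mem_univ i0),
        ← Finset.add_sum_erase _ (fun i => ((Function.update n i0 (n i0 - 1)) i : 𝕂) * u i)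
        (Finset.mem_univ i0)]
      have h3 : ∑ i ∈ Finset.univ.erase i0, ((Function.update n i0 (n i0 - 1)) i : 𝕂) * u i =
          ∑ i ∈ Finset.univ.erase i0, (n i : 𝕂) * u i := by
        refine Finset.sum_congr rfl fun i hi => ?_
        rw [Function.update_of_ne (Finset.ne_of_mem_erase hi)]
      rw [h3, Function.update_self, Nat.cast_sub hn]
      push_cast
      ring
    have h4 : ∑ i, ((Function.update n i0 (n i0 - 1)) i : 𝕂) * u i ∈ B.Γ := by
      have h5 := (χ_sum B Finset.univ u hu.mem fun i =>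
        ((Function.update n i0 (n i0 - 1)) i : ℤ)).1
      simpa using h5
    rw [h2, B.χ_add _ (hu.mem i0) _ h4]
  have hS0 : ∀ (g : {g // g ∈ F ∪ T}), ∀ δ ∈ insert (γ g) (S g),
      ∃ i0, ∃ e ∈ A, B.χ δ = x i0 * e := by
    intro g δ hδ
    refine hcone δ (hu.cone δ ?_)
    rw [Finset.mem_coe, Finset.mem_biUnion]
    exact ⟨g, Finset.mem_attach _ _, hδ⟩
  have hFS : ∀ g : {g // g ∈ F ∪ T},
      Algebra.adjoin k ((F : Set Ω) ∪ B.χ '' (S g : Set 𝕂)) ≤ A := by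
    intro g
    refine Algebra.adjoin_le ?_
    rintro f (hf | ⟨δ, hδ, rfl⟩)
    · exact hGA f (Finset.mem_union_left _ hf)
    · obtain ⟨i0, e, he, h1⟩ := hS0 g δ (Finset.mem_insert_of_mem hδ)
      rw [SetLike.mem_coe, h1]
      exact A.mul_mem (hxA i0) he
  -- the ideal
  let I : Ω → Prop := fun f => ∃ a : Fin r → Ω, (∀ i, a i ∈ locv v A) ∧ ∃ b : Fin D → Ω,
    (∀ j, b j ∈ locv v A) ∧ f = ∑ i, x i * a i + ∑ j, B.y j * b j
  have hIadd : ∀ f g, I f → I g → I (f + g) := by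
    rintro f g ⟨a, ha, b, hb, rfl⟩ ⟨a', ha', b', hb', rfl⟩
    refine ⟨fun i => a i + a' i, fun i => Subalgebra.add_mem _ (ha i) (ha' i),
      fun j => b j + b' j, fun j => Subalgebra.add_mem _ (hb j) (hb' j), ?_⟩
    simp only [mul_add, Finset.sum_add_distrib]
    ring
  have hImul : ∀ f g, I f → g ∈ locv v A → I (f * g) := by
    rintro f g ⟨a, ha, b, hb, rfl⟩ hg
    refine ⟨fun i => a i * g, fun i => Subalgebra.mul_mem _ (ha i) hg, fun j => b j * g,
      fun j => Subalgebra.mul_mem _ (hb j) hg, ?_⟩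
    rw [add_mul, Finset.sum_mul, Finset.sum_mul]
    simp only [mul_assoc]
  have hI0 : I 0 := ⟨0, fun _ => Subalgebra.zero_mem _, 0, fun _ => Subalgebra.zero_mem _, by simp⟩
  have hIsum : ∀ {ι : Type} (s : Finset ι) (f : ι → Ω), (∀ i ∈ s, I (f i)) → I (∑ i ∈ s, f i) := by
    intro ι s f hf
    induction s using Finset.induction_on with
    | empty => rw [Finset.sum_empty]; exact hI0
    | insert i s hi ih =>
      rw [Finset.sum_insert hi]
      exact hIadd _ _ (hf i (Finset.mem_insert_self i s))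
        (ih fun j hj => hf j (Finset.mem_insert_of_mem hj))
  have hIx : ∀ i, I (x i) := fun i => ⟨Pi.single i 1, fun j => by
      by_cases hj : j = i
      · subst hj; rw [Pi.single_eq_same]; exact Subalgebra.one_mem _
      · rw [Pi.single_eq_of_ne hj]; exact Subalgebra.zero_mem _, 0, fun _ => Subalgebra.zero_mem _, by
      simp [Pi.single_apply]⟩
  have hIy : ∀ j, I (B.y j) := fun j => ⟨0, fun _ => Subalgebra.zero_mem _, Pi.single j 1,
    fun l => by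
      by_cases hj : l = j
      · subst hj; rw [Pi.single_eq_same]; exact Subalgebra.one_mem _
      · rw [Pi.single_eq_of_ne hj]; exact Subalgebra.zero_mem _, by
      simp [Pi.single_apply]⟩
  have hIpos : ∀ f, I f → VPos v f := by
    rintro f ⟨a, ha, b, hb, rfl⟩
    have hsum : ∀ {ι : Type} (s : Finset ι) (f : ι → Ω), (∀ i ∈ s, VPos v (f i)) →
        VPos v (∑ i ∈ s, f i) := by
      intro ι s f hf
      induction s using Finset.induction_on with
      | empty => rw [Finset.sum_empty]; exact Pool.Agent.TAO.VPos.zero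
      | insert i s hi ih =>
        rw [Finset.sum_insert hi]
        exact Pool.Agent.TAO.VPos.add (hf i (Finset.mem_insert_self i s))
          (ih fun j hj => hf j (Finset.mem_insert_of_mem hj))
    refine Pool.Agent.TAO.VPos.add (hsum _ _ fun i _ => ?_) (hsum _ _ fun j _ => ?_)
    · exact Pool.Agent.TAO.VPos.mul (fr_vpos_χ B (hu.mem i) (hu.pos i)) (hnon _ (ha i))
    · exact Pool.Agent.TAO.VPos.mul (fun _ => B.y_pos j) (hnon _ (hb j))
  -- every element of `A` is a constant plus an element of the ideal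
  have hAI : ∀ f ∈ A, ∃ c : k, I (f - algebraMap k Ω c) := by
    intro f hf
    induction hf using Algebra.adjoin_induction with
    | mem f hf =>
      rcases hf with (hf | ⟨i, rfl⟩) | ⟨j, rfl⟩
      · have hg : f ∈ F ∪ T := hf
        refine ⟨c ⟨f, hg⟩, ?_⟩
        have h1 := hab ⟨f, hg⟩
        simp only at h1
        rw [h1]
        obtain ⟨i0, e, he, h2⟩ := hS0 ⟨f, hg⟩ _ (Finset.mem_insert_self _ _)
        rw [h2, mul_assoc]
        refine hIadd _ _ (hImul _ _ (hIx i0) ?_) (hIsum _ _ fun j _ => hImul _ _ (hIy j) ?_)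
        · exact Subalgebra.mul_mem _ (le_locv _ he) (locv_mono (hFS _) (ha _))
        · exact locv_mono (hFS _) (hb _ j)
      · exact ⟨0, by rw [_root_.map_zero, sub_zero]; exact hIx i⟩
      · exact ⟨0, by rw [_root_.map_zero, sub_zero]; exact hIy j⟩
    | algebraMap c => exact ⟨c, by rw [sub_self]; exact hI0⟩
    | add f g _ _ hf hg =>
      obtain ⟨c, hc⟩ := hf
      obtain ⟨d, hd⟩ := hg
      refine ⟨c + d, ?_⟩
      have := hIadd _ _ hc hd
      rw [_root_.map_add]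
      convert this using 1
      ring
    | mul f g hfA hgA hf hg =>
      obtain ⟨c, hc⟩ := hf
      obtain ⟨d, hd⟩ := hg
      refine ⟨c * d, ?_⟩
      have h1 := hImul _ g hc (le_locv _ hgA)
      have h2 := hImul _ (algebraMap k Ω c) hd (Subalgebra.algebraMap_mem _ c)
      have := hIadd _ _ h1 h2
      rw [_root_.map_mul]
      convert this using 1
      ring
  have hgen : ∀ f ∈ locv v A, VPos v f → I f := by
    rintro f hf hfp
    obtain ⟨P, hP, Q, hQ, hQ0, hvQ, rfl⟩ := hf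
    obtain ⟨c, hc⟩ := hAI P hP
    have hPp : VPos v P := by
      intro hP0
      have h1 := hfp (div_ne_zero hP0 hQ0)
      rwa [v.map_div hP0 hQ0, hvQ, sub_zero] at h1
    have hcp : VPos v (algebraMap k Ω c) := by
      have h1 := hPp.sub (hIpos _ hc)
      rwa [sub_sub_cancel] at h1
    have hc0 := ctx_const h hcp
    rw [hc0, _root_.map_zero, sub_zero] at hc
    rw [div_eq_mul_inv]
    exact hImul _ _ hc (locv_inv (le_locv _ hQ) hQ0 hvQ)
  have halg : ∀ g : Ω, IsAlgebraic (locv v A) g := by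
    intro g
    refine isAlgebraic_of_frac (fun f hf => ?_) (B.alg g)
    rw [← mem_frac]
    have hfield : Algebra.adjoin k ((F : Set Ω) ∪ B.χ '' {γ | γ ∈ B.Γ ∧ 0 ≤ γ}) ≤
        (IntermediateField.adjoin k ((locv v A : Subalgebra k Ω) : Set Ω)).toSubalgebra := by
      refine Algebra.adjoin_le ?_
      rintro f (hf | ⟨δ, ⟨hδ, -⟩, rfl⟩)
      · exact IntermediateField.subset_adjoin _ _ (le_locv _ (hGA f (Finset.mem_union_left _ hf)))
      · obtain ⟨n, hn⟩ := hu.gen δ hδ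
        have h1 := (χ_sum B Finset.univ u hu.mem n).2
        rw [← hn] at h1
        rw [SetLike.mem_coe, h1]
        exact prod_mem fun i _ => zpow_mem
          (IntermediateField.subset_adjoin _ _ (le_locv _ (hxA i))) _
    rw [hF] at hf
    obtain ⟨a, ha, b, hb, -, -, rfl⟩ := hf
    exact div_mem (hfield ha) (hfield hb)
  refine ⟨{ x := x, x_ne := fun i => B.χ_ne _ (hu.mem i),
            x_pos := fun i => by rw [B.χ_val _ (hu.mem i)]; exact hu.pos i,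
            x_ind := ?_, y := B.y, y_ne := B.y_ne, y_pos := B.y_pos, R := locv v A,
            nonneg := hnon, x_mem := fun i => le_locv _ (hxA i), y_mem := fun j => le_locv _ (hyA j),
            fgen := ?_, gen := hgen, alg := halg }, fun i => rfl, rfl, rfl, hRR,
          fun f hf => le_locv _ (hGA f (Finset.mem_union_right _ hf))⟩
  · have h1 : (fun i => v (x i)) = u := by
      funext i; exact B.χ_val _ (hu.mem i)
    rw [h1]; exact hu.ind
  · refine ⟨(F ∪ T) ∪ Finset.univ.image x ∪ Finset.univ.image B.y, ?_⟩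
    rw [hA]
    congr 2
    ext z
    simp only [Finset.coe_union, Set.mem_union, Finset.coe_image, Finset.coe_univ, Set.image_univ]

end Pool.Agent.ALLG
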