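import Pool.Agent.Lib.ALLG.Defs
import Pool.Agent.Lib.ALLZO.A2
import Pool.Agent.Lib.ALLG.FRTame
import Pool.Agent.Lib.ALLG.RDFrame

/-!
# TANK G: port of `Lib/ALLZO/A2.lean` to the frames `ALLG.FR` (no condition `full`)
-/

set_option autoImplicit false

open Polynomial

namespace Pool.Agent.ALLG

open Pool.Agent.ALLZO
open Pool.Agent.TAO (Ctx0)
open Pool.Agent.TAO (OVal VPos val_add_vpos Ctx0)
open Pool.Agent.ALLO (locv)
open Pool.Agent.LU1 (FracIs fixO mem_fixO)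
open Pool.Agent.ALL6 (l4 vpos_sum sum_min L5Data alg_ne L5M trS trS_add trS_mul trS_fix trS_fixed
  trS_mem)

universe u w

variable {k Ω : Type u} [Field k] [Field Ω] [Algebra k Ω] {𝕂 : Type w} [Field 𝕂] [LinearOrder 𝕂]
  [IsStrictOrderedRing 𝕂] {v : OVal 𝕂 Ω} {r D : ℕ} {nn : ℕ}

variable {F : IntermediateField k Ω} {N : IntermediateField F Ω}

/-- What is known on the valuation `w` of `K₂` when the tame toric theorem has been applied. -/
structure WData (B : FR k v r D) {F : IntermediateField k Ω} (hR : NRing v F B.R)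
    (N : IntermediateField F Ω) (H : Subgroup (N ≃ₐ[F] N)) (B₁ : FR k v r D) (w : OVal 𝕂 Ω) :
    Prop where
  same : B.Same B₁
  R_eq : B₁.R = RD v B.R N hR.frac.1
  pos : ∃ γ ∈ B₁.Γ, 0 < γ
  chi : ∀ γ ∈ B₁.Γ, w (B₁.χ γ) = γ
  cutR : ∀ f, AX B₁ B₁.R f → f ≠ 0 → 0 ≤ w f → f ∈ B₁.R
  valF : ∀ f ∈ FD v B.R N hR.frac.1, f ≠ 0 → w f ∈ B₁.Γ
  posA : ∀ f ∈ AH v B.R (DP v B.R N hR.frac.1 ⊓ H), f ≠ 0 → 0 < w f → 0 < v f
  inv : ∀ σ ∈ DP v B.R N hR.frac.1, ∀ b : N, (∀ τ ∈ DP v B.R N hR.frac.1 ⊓ H, τ b = b) →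
    b ≠ 0 → w ((σ b : N) : Ω) = w (b : Ω)
  cut : ∀ a, AX B₁ (AH v B.R (DP v B.R N hR.frac.1 ⊓ H)) a → a ≠ 0 → 0 ≤ w a →
    a ∈ AH v B.R (DP v B.R N hR.frac.1 ⊓ H)
  ge : ∀ a ∈ AH v B.R (DP v B.R N hR.frac.1 ⊓ H), a ≠ 0 → 0 ≤ w a
  unit : ∀ b ∈ fixO F N (DP v B.R N hR.frac.1 ⊓ H), b ≠ 0 → ∃ a, a ≠ 0 ∧
    AX B₁ (AH v B.R (DP v B.R N hR.frac.1 ⊓ H)) a ∧
    AX B₁ (AH v B.R (DP v B.R N hR.frac.1 ⊓ H)) a⁻¹ ∧ w a = w b
  gen : ∀ f ∈ AH v B.R (DP v B.R N hR.frac.1 ⊓ H), VPos v f → ∃ b : Fin D → Ω,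
    (∀ i, b i ∈ AH v B.R (DP v B.R N hR.frac.1 ⊓ H)) ∧
    ∃ j ∈ AH v B.R (DP v B.R N hR.frac.1 ⊓ H), VPos w j ∧ f = ∑ i, B₁.y i * b i + j
  krull : ∀ a ∈ AH v B.R (DP v B.R N hR.frac.1 ⊓ H),
    (∀ n, YJ w (AH v B.R (DP v B.R N hR.frac.1 ⊓ H)) B₁.y n a) → VPos w a
  tors : ∃ e : ℕ, 0 < e ∧ ∀ b ∈ fixO F N (DP v B.R N hR.frac.1 ⊓ H), b ≠ 0 →
    (e : 𝕂) * w b ∈ B₁.Γ

section

variable {B : FR k v r D} {hR : NRing v F B.R} {H : Subgroup (N ≃ₐ[F] N)} {B₁ : FR k v r D}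
  {w : OVal 𝕂 Ω}

/-- The decomposition group preserves `CN`. -/
theorem CN_map [FiniteDimensional F N] (hR : NRing v F B.R) {σ : N ≃ₐ[F] N}
    (hσ : σ ∈ DP v B.R N hR.frac.1) {n : N} (hn : (n : Ω) ∈ CN v B.R N) :
    ((σ n : N) : Ω) ∈ CN v B.R N := by
  obtain ⟨s, hs, t, ht, ht0, hvt, hst⟩ := hn
  let s' : N := ⟨s, hs.1⟩
  let t' : N := ⟨t, ht.1⟩
  have h1 := val_map (hR := hR.frac.1) hR.nonneg hσ (n := t') ht.2 ht0 hvt
  have h2 : n = s' / t' := Subtype.ext hst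
  refine ⟨((σ s' : N) : Ω), ⟨(σ s').2, int_map hR.frac.1 σ (n := s') hs.2⟩,
    ((σ t' : N) : Ω), ⟨(σ t').2, int_map hR.frac.1 σ (n := t') ht.2⟩, h1.1, h1.2, ?_⟩
  rw [h2, map_div₀]
  rfl

theorem WData.χne (_h : WData B hR N H B₁ w) {γ : 𝕂} (hγ : γ ∈ B₁.Γ) : B₁.χ γ ≠ 0 :=
  B₁.χ_ne γ hγ

/-- The monomials are in the base field. -/
theorem WData.χF (h : WData B hR N H B₁ w) {γ : 𝕂} (hγ : γ ∈ B₁.Γ) : B₁.χ γ ∈ F := by
  have hB : γ ∈ B.Γ := by rw [← h.same.Γ_eq]; exact hγ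
  rw [h.same.χ_eq γ hB]
  rcases le_total 0 γ with h0 | h0
  · exact hR.frac.1 _ (B.χ_mem γ hB h0)
  · have h1 : B.χ (-γ) ∈ F := hR.frac.1 _ (B.χ_mem _ (B.Γ.neg_mem hB) (by linarith))
    rw [AX.χneg B hB] at h1
    have := inv_mem h1
    rwa [inv_inv] at this

/-- Constants. -/
theorem WData.const_val (h : WData B hR N H B₁ w) {c : k} (hc : c ≠ 0) :
    w (algebraMap k Ω c) = 0 := by
  have h0 : algebraMap k Ω c ≠ 0 := by simpa using hc
  have h1 := h.ge (algebraMap k Ω c) (Subalgebra.algebraMap_mem _ c) h0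
  have h2 := h.ge (algebraMap k Ω c⁻¹) (Subalgebra.algebraMap_mem _ c⁻¹) (by simpa using hc)
  rw [map_inv₀, w.map_inv h0] at h2
  linarith

end

section Main

variable {B : FR k v r D} {hR : NRing v F B.R} {H : Subgroup (N ≃ₐ[F] N)} {B₁ : FR k v r D}
  {w : OVal 𝕂 Ω} [FiniteDimensional F N]

/-- Row L4: elements of `A₂` are congruent to their averages. -/
theorem WData.row4 (p : ℕ) [CharP Ω p] (hc : Ctx0 k v nn) (h : WData B hR N H B₁ w)
    (hp : (DP v B.R N hR.frac.1 ⊓ H).relIndex (DP v B.R N hR.frac.1) < p) (a : N)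
    (ha : (a : Ω) ∈ AH v B.R (DP v B.R N hR.frac.1 ⊓ H)) :
    ((av (DP v B.R N hR.frac.1) (DP v B.R N hR.frac.1 ⊓ H) a : N) : Ω) ∈ B₁.R ∧
      VPos w ((a : Ω) - (av (DP v B.R N hR.frac.1) (DP v B.R N hR.frac.1 ⊓ H) a : N)) := by
  classical
  set G := DP v B.R N hR.frac.1 with hG
  set L := G ⊓ H with hL
  set A2 := AH v B.R L with hA2
  have hcN : CharP N p := by
    refine (RingHom.charP_iff (algebraMap N Ω) (algebraMap N Ω).injective p).2 inferInstance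
  have hρ : (L.relIndex G : N) ≠ 0 := natCast_ne_zero_of_lt p (relIndex_pos G L) hp
  have hρΩ : ((L.relIndex G : N) : Ω) = algebraMap k Ω (L.relIndex G : k) := by
    rw [map_natCast]; push_cast; rfl
  -- membership
  have hfix : ∀ n : N, (n : Ω) ∈ A2 → ∀ τ ∈ L, τ n = n := by
    intro n hn τ hτ
    obtain ⟨m, hm, h1⟩ := (mem_fixO F N L _).1 (mem_AH.1 hn).2
    have : m = n := Subtype.ext hm
    rw [← this]
    exact h1 τ hτ
  have hmem : ∀ n : N, (n : Ω) ∈ CN v B.R N → (∀ τ ∈ L, τ n = n) → (n : Ω) ∈ A2 :=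
    fun n h1 h2 => ⟨h1, (mem_fixO F N L _).2 ⟨n, rfl, h2⟩⟩
  -- the rings
  let A : Subring N := A2.toSubring.comap (algebraMap N Ω)
  have hAmem : ∀ n : N, n ∈ A ↔ (n : Ω) ∈ A2 := fun _ => Iff.rfl
  let F2 : Subring N :=
    { carrier := {n | ∀ σ ∈ G, σ n = n}
      mul_mem' := fun ha hb σ hσ => by rw [map_mul, ha σ hσ, hb σ hσ]
      one_mem' := fun σ _ => map_one σ
      add_mem' := fun ha hb σ hσ => by rw [map_add, ha σ hσ, hb σ hσ]
      zero_mem' := fun σ _ => map_zero σ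
      neg_mem' := fun ha σ hσ => by rw [map_neg, ha σ hσ] }
  have hF2 : ∀ n : N, n ∈ F2 ↔ ∀ σ ∈ G, σ n = n := fun _ => Iff.rfl
  have hyB : ∀ i, B₁.y i ∈ B.R := fun i => by
    rw [h.same.y_eq]; exact B.y_mem i
  have hyF : ∀ i, B₁.y i ∈ F := fun i => hR.frac.1 _ (hyB i)
  let y : Fin D → N := fun i => algebraMap F N ⟨B₁.y i, hyF i⟩
  have hy : ∀ i, ((y i : N) : Ω) = B₁.y i := fun _ => rfl
  let W : OVal 𝕂 N := rO w (algebraMap N Ω)
  have hWv : ∀ n : N, TAO.VPos W n ↔ VPos w (n : Ω) := fun n => rO_vpos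
  have hsumΩ : ∀ (b : Fin D → N), ((∑ i, y i * b i : N) : Ω) = ∑ i, B₁.y i * (b i : Ω) := by
    intro b
    push_cast
    rfl
  -- the average preserves `A₂`
  have hσA : ∀ n : N, (n : Ω) ∈ A2 → ∀ σ ∈ G, ((σ n : N) : Ω) ∈ CN v B.R N :=
    fun n hn σ hσ => CN_map hR hσ (mem_AH.1 hn).1
  have hcN' : ∀ c : k, algebraMap k Ω c ∈ CN v B.R N := fun c => Subalgebra.algebraMap_mem _ c
  have hρinv : (((L.relIndex G : N)⁻¹ : N) : Ω) ∈ CN v B.R N := by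
    push_cast
    have := hcN' ((L.relIndex G : k)⁻¹)
    rw [map_inv₀, map_natCast] at this
    exact this
  have havF : ∀ n : N, (∀ τ ∈ L, τ n = n) → av G L n ∈ F2 := by
    intro n hn σ hσ
    unfold av
    rw [map_mul, trS_fixed hn σ hσ, fix_natCast_inv]
  have havCN : ∀ n : N, (n : Ω) ∈ A2 → ((av G L n : N) : Ω) ∈ CN v B.R N := by
    intro n hn
    unfold av
    rw [show (((L.relIndex G : N)⁻¹ * trS G L n : N) : Ω) =
      (((L.relIndex G : N)⁻¹ : N) : Ω) * ((trS G L n : N) : Ω) from rfl]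
    refine Subalgebra.mul_mem _ hρinv ?_
    exact trS_mem ((CN v B.R N).toSubring.comap (algebraMap N Ω)).toAddSubmonoid
      (fun σ hσ => hσA n hn σ hσ)
  have havA : ∀ n : N, (n : Ω) ∈ A2 → av G L n ∈ A ∧ av G L n ∈ F2 := fun n hn =>
    ⟨hmem _ (havCN n hn) fun τ hτ => havF n (hfix n hn) τ hτ.1, havF n (hfix n hn)⟩
  have key := l4 (W := W) A F2 y (Set.range fun c : k => (algebraMap F N ⟨algebraMap k Ω c,
      F.algebraMap_mem c⟩)) (av G L) (fun n a => YJ w A2 B₁.y n (a : Ω))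
    (fun i σ _ => σ.commutes _) (by rintro _ ⟨c, rfl⟩ σ _; exact σ.commutes _)
    (fun a b => by unfold av; rw [trS_add, mul_add])
    (fun f hf a => by unfold av; rw [trS_mul hf]; ring)
    (by unfold av; rw [trS_fix fun σ _ => map_one σ, mul_one, inv_mul_cancel₀ hρ])
    (fun a ha => havA a ha)
    (fun a ha hpa => by
      rw [hWv] at hpa ⊢
      unfold av
      rw [show (((L.relIndex G : N)⁻¹ * trS G L a : N) : Ω) =
        (((L.relIndex G : N)⁻¹ : N) : Ω) * ((trS G L a : N) : Ω) from rfl]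
      refine VPos.mul' ?_ ?_
      · intro h0
        have h1 := h.ge _ (⟨hρinv, (mem_fixO F N L _).2 ⟨_, rfl, fun τ _ =>
          fix_natCast_inv τ _⟩⟩ : (((L.relIndex G : N)⁻¹ : N) : Ω) ∈ A2) h0
        exact h1
      · have h2 : ∀ σ ∈ G, TAO.VPos W (σ a) := by
          intro σ hσ h0
          have ha0 : a ≠ 0 := by rintro rfl; exact h0 (map_zero _)
          show 0 < w ((σ a : N) : Ω)
          rw [h.inv σ hσ a (hfix a ha) ha0]
          exact hpa (by simpa using ha0)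
        have h3 : TAO.VPos W (trS G L a) := by
          unfold trS
          exact vpos_sum _ _ fun q _ => h2 _ (q.out : G).2
        exact (hWv _).1 h3)
    (fun a ha => by
      obtain ⟨c, hc1⟩ := Ctx0.residue hc (CN_nonneg hR.nonneg _ (mem_AH.1 ha).1)
      have h1 : (a : Ω) - algebraMap k Ω c ∈ A2 := Subalgebra.sub_mem _ ha
        (Subalgebra.algebraMap_mem _ c)
      obtain ⟨b, hb, j, hj, hjp, hbj⟩ := h.gen _ h1 hc1
      have hN : ∀ g ∈ A2, g ∈ N := fun g hg => CN_le g (mem_AH.1 hg).1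
      refine ⟨_, ⟨c, rfl⟩, (show algebraMap k Ω c ∈ A2 from Subalgebra.algebraMap_mem A2 c),
        fun i => ⟨b i, hN _ (hb i)⟩,
        fun i => hb i, ⟨j, hN _ hj⟩, hj, (hWv _).2 hjp, ?_⟩
      apply Subtype.ext
      show (a : Ω) = algebraMap k Ω c + (((∑ i, y i * (⟨b i, hN _ (hb i)⟩ : N) : N) : Ω) + j)
      rw [hsumΩ]
      show (a : Ω) = algebraMap k Ω c + (∑ i, B₁.y i * b i + j)
      rw [← hbj]; ring)
    (by
      rintro _ ⟨c, rfl⟩ b hb j hj hjp hcb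
      have h1 : algebraMap k Ω c = ∑ i, B₁.y i * (b i : Ω) + j := by
        rw [← hsumΩ]
        exact congrArg (fun n : N => (n : Ω)) hcb
      have h2 : VPos v (algebraMap k Ω c) := by
        rw [h1]
        refine VPos.add ?_ fun h0 => h.posA _ hj h0 ((hWv _).1 hjp h0)
        refine ALLZ_vpos_sum _ _ fun i _ => VPos.mul (fun _ => ?_)
          (CN_nonneg hR.nonneg _ (mem_AH.1 (hb i)).1)
        exact B₁.y_pos i
      have h3 : c = 0 := Ctx0.const_eq_zero hc h2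
      subst h3
      apply Subtype.ext
      show algebraMap k Ω 0 = 0
      rw [map_zero])
    (fun a ha => ha)
    (fun n b j hb hbn hj hjp => ⟨fun i => (b i : Ω), fun i => ⟨hb i, hbn i⟩, j, hj,
      (hWv _).1 hjp, by rw [← hsumΩ b]; rfl⟩)
    (fun a ha hn => (hWv _).2 (h.krull _ ha hn))
  refine ⟨?_, ?_⟩
  · rw [h.R_eq]
    exact ⟨havCN a ha, (mem_fixO F N G _).2 ⟨_, rfl, fun σ hσ => (havA a ha).2 σ hσ⟩⟩
  · exact (hWv _).1 (key a ha)

end Main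

end Pool.Agent.ALLG
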