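import Pool.Agent.Lib.ALLG.Defs
import Pool.Agent.Lib.ALLZO.Z2d
import Pool.Agent.Lib.ALLG.NFD

/-!
# TANK G: port of `Lib/ALLZO/Z2d.lean` to the frames `ALLG.FR` (no condition `full`)
-/

set_option autoImplicit false

namespace Pool.Agent.ALLG

open Pool.Agent.ALLZO
open Pool.Agent.TAO (Ctx0)
open Finset Module
open Pool.Agent.TAO (OVal)
open Pool.Agent.TAO (VPos)
open Pool.Agent.ALLO (locv)
open Pool.Agent.LU1 (FracIs)
open Pool.Agent.ALLh94 (mon)
open Pool.Agent.LU1.NFA (mem_frac isAlgebraic_of_frac)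
open Pool.Agent.ALLO (BetaStmt)
open Pool.Agent.TAO (CtxR)
open Pool.Agent.TAO (Ctx0)

universe u w

section Level

variable {k Ω : Type u} [Field k] [Field Ω] [Algebra k Ω]
  {𝕂 : Type w} [Field 𝕂] [LinearOrder 𝕂] [IsStrictOrderedRing 𝕂] {v : OVal 𝕂 Ω} {r D n p : ℕ}
  [hp : Fact p.Prime] [CharP Ω p]

end Level

section FRs

variable {k Ω : Type u} [Field k] [Field Ω] [Algebra k Ω]
  {𝕂 : Type w} [Field 𝕂] [LinearOrder 𝕂] [IsStrictOrderedRing 𝕂] {v : OVal 𝕂 Ω} {r D n : ℕ}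

/-- A level of a frame with the same field of fractions. -/
theorem fr_level (h : Ctx0 k v n) (hr : 0 < r) (B : FR k v r D) (T : Finset Ω) (hT : ∀ f ∈ T, f ∈ B.R)
    {K : IntermediateField k Ω} (hK : FracIs B.R K) :
    ∃ S0 : Finset 𝕂, (∀ γ ∈ S0, γ ∈ B.Γ ∧ 0 < γ) ∧
      ∀ u : Fin r → 𝕂, GoodBasis B.Γ (S0 : Set 𝕂) u →
        ∃ N : NFD k v r D, (∀ i, N.x i = B.χ (u i)) ∧ N.y = B.y ∧ N.R ≤ B.R ∧
          (∀ f ∈ T, f ∈ N.R) ∧ FracIs N.R K := by
  classical
  obtain ⟨F, hF⟩ := B.fgen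
  have hFR : ∀ f ∈ F, f ∈ B.R := fun f hf => by
    rw [hF]; exact le_locv _ (Algebra.subset_adjoin (Or.inl hf))
  obtain ⟨S0, G, hS0, hG, hTG, hN⟩ := fr_exists_NFD (r := r) h hr B (T ∪ F) (fun f hf => by
    rcases Finset.mem_union.1 hf with h1 | h1
    · exact hT f h1
    · exact hFR f h1)
  refine ⟨S0, hS0, fun u hu => ?_⟩
  obtain ⟨N, hNx, hNy, -, hNle, hNT⟩ := hN u hu
  refine ⟨N, hNx, hNy, hNle, fun f hf => hNT f (Finset.mem_union_left _ hf),
    fun f hf => hK.1 f (hNle hf), fun g hg => ?_⟩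
  have hfield : Algebra.adjoin k ((F : Set Ω) ∪ B.χ '' {γ | γ ∈ B.Γ ∧ 0 ≤ γ}) ≤
      (IntermediateField.adjoin k (N.R : Set Ω)).toSubalgebra := by
    refine Algebra.adjoin_le ?_
    rintro f (hf | ⟨δ, ⟨hδ, -⟩, rfl⟩)
    · exact IntermediateField.subset_adjoin _ _ (hNT f (Finset.mem_union_right _ hf))
    · obtain ⟨m, hm⟩ := hu.gen δ hδ
      have h1 := (χ_sum B Finset.univ u hu.mem m).2
      rw [← hm] at h1
      rw [SetLike.mem_coe, h1]
      refine prod_mem fun i _ => zpow_mem (IntermediateField.subset_adjoin _ _ ?_) _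
      rw [← hNx i]
      exact N.x_mem i
  have hR : ∀ f ∈ B.R, f ∈ IntermediateField.adjoin k (N.R : Set Ω) := by
    intro f hf
    rw [hF] at hf
    obtain ⟨a, ha, b, hb, -, -, rfl⟩ := hf
    exact div_mem (hfield ha) (hfield hb)
  obtain ⟨a, ha, b, hb, hb0, rfl⟩ := hK.2 g hg
  exact mem_frac.1 (div_mem (hR a ha) (hR b hb))

theorem trdeg_frac (h : Ctx0 k v n) (B : FR k v r D) {K : IntermediateField k Ω}
    (hK : FracIs B.R K) : Algebra.trdeg k K = n := by
  have h1 : Algebra.IsAlgebraic K Ω := by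
    refine ⟨fun g => ?_⟩
    have h2 := B.alg g
    obtain ⟨P, hP, hPg⟩ := h2
    let φ : B.R →ₐ[k] K :=
      { toFun := fun z => ⟨z, hK.1 z z.2⟩
        map_one' := rfl
        map_mul' := fun _ _ => rfl
        map_zero' := rfl
        map_add' := fun _ _ => rfl
        commutes' := fun _ => rfl }
    have hφ : Function.Injective φ := fun a b hab => Subtype.ext (congrArg (fun z : K => (z : Ω)) hab)
    refine ⟨P.map φ.toRingHom, ?_, ?_⟩
    · rw [Ne, Polynomial.map_eq_zero_iff hφ]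
      exact hP
    · rw [Polynomial.aeval_def, Polynomial.eval₂_map]
      exact hPg
  have h2 : Algebra.trdeg k K + Algebra.trdeg K Ω = Algebra.trdeg k Ω := trdeg_add_eq k K
  have h3 : Algebra.trdeg K Ω = 0 := _root_.trdeg_eq_zero
  rw [h3, add_zero, h.trdeg] at h2
  exact h2

end FRs

section Dual

variable {k Ω : Type u} [Field k] [Field Ω] [Algebra k Ω]
  {𝕂 : Type w} [Field 𝕂] [LinearOrder 𝕂] [IsStrictOrderedRing 𝕂] {v : OVal 𝕂 Ω} {r D n : ℕ}

/-- `t` as a family of elements of `K`. -/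
theorem exists_dual_level (p : ℕ) [hp : Fact p.Prime] [CharP Ω p] (h : Ctx0 k v n)
    (hk : ∀ c : k, ∃ d : k, d ^ p = c) (hn : n = r + D)
    (N : NFD k v r D) (B : FR k v r D) {K : IntermediateField k Ω} (hB : FracIs B.R K)
    (hK : FracIs N.R K) :
    ∃ (t : Fin r ⊕ Fin D → K), (∀ i, (t i : Ω) = N.t i) ∧ PExp p t (Set.univ : Set K) ∧
      ∃ d : Fin r ⊕ Fin D → Derivation k K K, (∀ i j, d i (t j) = if i = j then 1 else 0) ∧
        ∀ (δ : Derivation k K K) (z : K), δ z = ∑ i, δ (t i) * d i z := by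
  have hess : Algebra.EssFiniteType k K := frac_ess N hK
  have htr : Algebra.trdeg k K = Fintype.card (Fin r ⊕ Fin D) := by
    rw [trdeg_frac h B hB, Fintype.card_sum, Fintype.card_fin, Fintype.card_fin, hn]
  have htK : ∀ i, N.t i ∈ K := by
    rintro (i | j)
    · exact hK.1 _ (N.x_mem i)
    · exact hK.1 _ (N.y_mem j)
  have hchar : CharP K p := (algebraMap K Ω).charP (algebraMap K Ω).injective p
  have hexp : PExp p (fun i => (⟨N.t i, htK i⟩ : K)) (Set.univ : Set K) := by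
    intro f _
    obtain ⟨c, hc, e⟩ := N.pexp_frac h hk hK (f : Ω) f.2
    refine ⟨fun α => ⟨c α, hc α⟩, fun _ => trivial, Subtype.ext ?_⟩
    rw [e]
    simp only [mon, AddSubmonoidClass.coe_finsetSum, MulMemClass.coe_mul, SubmonoidClass.coe_finsetProd,
      SubmonoidClass.coe_pow]
  exact ⟨fun i => ⟨N.t i, htK i⟩, fun _ => rfl, hexp, exists_dual_of_pexp htr _ hexp⟩

end Dual

end Pool.Agent.ALLG
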