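import Pool.Agent.Lib.ALLG.Defs
import Pool.Agent.Lib.ALLZO.Norm
import Pool.Agent.Lib.ALLG.Alg0
import Pool.Agent.Lib.ALLG.NFD
import Pool.Agent.Lib.ALLG.Z2d

/-!
# TANK G: port of `Lib/ALLZO/Norm.lean` to the frames `ALLG.FR` (no condition `full`)
-/

set_option autoImplicit false

namespace Pool.Agent.ALLG

open Pool.Agent.ALLZO
open Pool.Agent.TAO (Ctx0)
open Finset Module
open Pool.Agent.TAO (OVal VPos Ctx0 CtxR)
open Pool.Agent.LU1 (FracIs)
open Pool.Agent.LU1.NFA (mem_frac)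
open Pool.Agent.ALLO (locv)
open Pool.Agent.LUA (PB PInd)
open Pool.Agent.ALLh94 (mon coord_unique coord_mem)

universe u w

variable {k Ω : Type u} [Field k] [Field Ω] [Algebra k Ω] {𝕂 : Type w} [Field 𝕂] [LinearOrder 𝕂]
  [IsStrictOrderedRing 𝕂] {v : OVal 𝕂 Ω} {r D n : ℕ}

/-- The monomials are independent over the `p`-th powers of `K`. -/
theorem NFD.pind_field (p : ℕ) [hp : Fact p.Prime] [CharP Ω p] (N : NFD k v r D) (h : Ctx0 k v n)
    (hk : ∀ c : k, ∃ d : k, d ^ p = c) (hn : n = r + D) (B : FR k v r D)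
    {K : IntermediateField k Ω} (hB : FracIs B.R K) (hK : FracIs N.R K)
    (c : (Fin r ⊕ Fin D → Fin p) → Ω) (hc : ∀ α, c α ∈ K)
    (h0 : ∑ α, mon N.t α * c α ^ p = 0) : ∀ α, c α = 0 := by
  obtain ⟨t, ht, -, d, hd, -⟩ := exists_dual_level p h hk hn N B hB hK
  have hchar : CharP K p := (algebraMap K Ω).charP (algebraMap K Ω).injective p
  have h1 : ∑ α, mon t α * (⟨c α, hc α⟩ : K) ^ p =
      ∑ α : Fin r ⊕ Fin D → Fin p, mon t α * (0 : K) ^ p := by
    apply Subtype.ext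
    have h2 : ((∑ α, mon t α * (⟨c α, hc α⟩ : K) ^ p : K) : Ω) = ∑ α, mon N.t α * c α ^ p := by
      simp only [mon, AddSubmonoidClass.coe_finsetSum, MulMemClass.coe_mul,
        SubmonoidClass.coe_finsetProd, SubmonoidClass.coe_pow, ht]
    rw [h2, h0]
    simp [zero_pow hp.out.ne_zero]
  have h2 := coord_unique t (fun i => (d i).restrictScalars ℤ) (fun i j => hd i j)
    (fun α => (⟨c α, hc α⟩ : K)) (fun _ => 0) h1
  intro α
  exact congrArg (fun z : K => (z : Ω)) (congrFun h2 α)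

/-- The ring of a level is normal. -/
theorem NFD.normal (p : ℕ) [hp : Fact p.Prime] [CharP Ω p] (N : NFD k v r D) (h : Ctx0 k v n)
    (hk : ∀ c : k, ∃ d : k, d ^ p = c) (hn : n = r + D) (B : FR k v r D)
    {K : IntermediateField k Ω} (hB : FracIs B.R K) (hK : FracIs N.R K) {f : Ω} (hf : f ∈ K)
    (hint : IsIntegral N.R f) : f ∈ N.R := by
  have := N.isNoetherian
  refine (N.pb p h hk).normal (fun c hc hs => ?_) (hK.2 f hf) hint
  refine NFD.pind_field p N h hk hn B hB hK c (fun α => ?_) hs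
  obtain ⟨a, ha, b, hb, -, e⟩ := hc α
  rw [e]
  exact K.div_mem (hK.1 a ha) (hK.1 b hb)

/-- **The ring of a frame is normal.** -/
theorem fr_normal (p : ℕ) [hp : Fact p.Prime] [CharP Ω p] (h : Ctx0 k v n)
    (hk : ∀ c : k, ∃ d : k, d ^ p = c) (hr : 0 < r) (hn : n = r + D) (B : FR k v r D)
    {K : IntermediateField k Ω} (hB : FracIs B.R K) {f : Ω} (hf : f ∈ K)
    (hint : IsIntegral B.R f) : f ∈ B.R := by
  classical
  obtain ⟨P, hP, hPf⟩ := hint
  set T : Finset Ω := P.support.image fun i => (P.coeff i : Ω) with hT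
  obtain ⟨S0, hS0, hN⟩ := fr_level (r := r) h hr B T (fun g hg => by
    rw [hT, Finset.mem_image] at hg
    obtain ⟨i, -, rfl⟩ := hg
    exact (P.coeff i).2) hB
  obtain ⟨u, hu⟩ := fr_exists_basis h hr B S0 hS0
  obtain ⟨N, -, -, hNle, hNT, hNK⟩ := hN u hu
  refine hNle (NFD.normal p N h hk hn B hB hNK hf ?_)
  have hc : ∀ i, (P.coeff i : Ω) ∈ N.R := by
    intro i
    by_cases hi : i ∈ P.support
    · exact hNT _ (Finset.mem_image.2 ⟨i, hi, rfl⟩)
    · rw [Polynomial.notMem_support_iff.1 hi]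
      exact N.R.zero_mem
  have hlift : P ∈ Polynomial.lifts (Subalgebra.inclusion hNle).toRingHom := by
    rw [Polynomial.lifts_iff_coeff_lifts]
    intro i
    exact ⟨⟨P.coeff i, hc i⟩, Subtype.ext rfl⟩
  obtain ⟨Q, hQ, -, hQm⟩ := Polynomial.lifts_and_degree_eq_and_monic hlift hP
  refine ⟨Q, hQm, ?_⟩
  rw [← hPf, ← hQ, Polynomial.eval₂_map]
  rfl

/-- **Row (a).** -/
theorem fr_NRing (p : ℕ) [hp : Fact p.Prime] [CharP Ω p] (h : Ctx0 k v n)
    (hk : ∀ c : k, ∃ d : k, d ^ p = c) (hr : 0 < r) (hn : n = r + D) (B : FR k v r D)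
    {K : IntermediateField k Ω} (hB : FracIs B.R K) : NRing v K B.R :=
  ⟨hB, B.nonneg, B.loc, fun _ hf hint => fr_normal p h hk hr hn B hB hf hint⟩

end Pool.Agent.ALLG
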