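import Pool.Agent.Lib.ALLG.Defs
import Pool.Agent.Lib.ALLZO.DescFrame
import Pool.Agent.Lib.ALLG.RDFrame
import Pool.Agent.Lib.ALLG.NFD

/-!
# TANK G: port of `Lib/ALLZO/DescFrame.lean` to the frames `ALLG.FR` (no condition `full`)
-/

set_option autoImplicit false

open Polynomial

namespace Pool.Agent.ALLG

open Pool.Agent.ALLZO
open Pool.Agent.TAO (Ctx0)
open Pool.Agent.TAO (OVal VPos val_add_vpos Ctx0)
open Pool.Agent.ALLO (locv)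
open Pool.Agent.LU1 (FracIs fixO mem_fixO)
open Pool.Agent.ALLO (icl ICl decP)
open Pool.Agent.ALL61O (DS Lc)

universe u w

variable {k Ω : Type u} [Field k] [Field Ω] [Algebra k Ω] {𝕂 : Type w} [Field 𝕂] [LinearOrder 𝕂]
  [IsStrictOrderedRing 𝕂] {v : OVal 𝕂 Ω} {nn : ℕ} {r D : ℕ}
variable {R : Subalgebra k Ω} {F : IntermediateField k Ω} {N : IntermediateField F Ω}

/-- `w` is a content valuation of the frame `B`. -/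
structure CW (B : FR k v r D) (w : OVal 𝕂 Ω) : Prop where
  val : ∀ γ ∈ B.Γ, w (B.χ γ) = γ
  nonneg : ∀ f ∈ B.R, w.Ge 0 f
  mem : ∀ f ∈ B.R, f ≠ 0 → w f ∈ B.Γ ∧ f / B.χ (w f) ∈ B.R

/-- Row (e), the core: `C = ICl v B.R E` is the ring of a frame. -/
theorem descend_core (h : Ctx0 k v nn) (B : FR k v r D) {K : IntermediateField k Ω}
    {N : IntermediateField K Ω} [FiniteDimensional K N] (hR : NRing v K B.R)
    (H : Subgroup (N ≃ₐ[K] N)) (B₂ : FR k v r D)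
    (hB₂ : ∀ f, f ∈ B₂.R ↔ f ∈ CN v B.R N ∧ f ∈ fixO K N (DP v B.R N hR.frac.1 ⊓ H))
    (hΓ : ∀ γ ∈ B.Γ, γ ∈ B₂.Γ) (hχ : ∀ γ ∈ B.Γ, B₂.Un (B.χ γ / B₂.χ γ)) (hy : B₂.y = B.y)
    (w : OVal 𝕂 Ω) (hwχ₂ : ∀ γ ∈ B₂.Γ, w (B₂.χ γ) = γ) (hwA : ∀ f ∈ B₂.R, w.Ge 0 f)
    (hcut : ∀ b ∈ fixO K N (DP v B.R N hR.frac.1 ⊓ H), (∃ γ ∈ B.Γ, B.χ γ * b ∈ B₂.R) →
      w.Ge 0 b → b ∈ B₂.R) :
    ∃ C : FR k v r D, C.R = ICl v B.R (fixO K N H) ∧ C.Γ = B₂.Γ ∧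
      (∀ γ ∈ B₂.Γ, C.χ γ ∈ fixO K N H) ∧ (∀ γ ∈ B₂.Γ, B₂.Un (C.χ γ / B₂.χ γ)) ∧
      (∀ γ ∈ B.Γ, C.Un (B.χ γ / C.χ γ)) ∧ C.y = B.y := by
  classical
  obtain ⟨θ, hθ⟩ := exists_isTheta (N := N) h hR
  set D₀ := DP v B.R N hR.frac.1 with hD₀
  set E := fixO K N H with hE
  set K₂ := fixO K N (D₀ ⊓ H) with hK₂
  have hEK : ∀ f ∈ E, f ∈ K₂ := by
    intro f hf
    obtain ⟨n, rfl, hn⟩ := (mem_fixO K N H f).1 hf
    exact (mem_fixO K N _ _).2 ⟨n, rfl, fun σ hσ => hn σ hσ.2⟩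
  have hKE : ∀ f ∈ K, f ∈ E := fun f hf =>
    (mem_fixO K N H f).2 ⟨algebraMap K N ⟨f, hf⟩, rfl, fun σ _ => σ.commutes _⟩
  have hRA : ∀ f ∈ B.R, f ∈ B₂.R := fun f hf =>
    (hB₂ f).2 ⟨intN_le_CN (le_intN hR.frac.1 hf), hEK f (hKE f (hR.frac.1 f hf))⟩
  have hχK : ∀ γ ∈ B.Γ, B.χ γ ∈ K := by
    intro γ hγ
    rcases le_total 0 γ with h0 | h0
    · exact hR.frac.1 _ (B.χ_mem γ hγ h0)
    · have h1 := K.inv_mem (hR.frac.1 _ (B.χ_mem (-γ) (B.Γ.neg_mem hγ) (by linarith)))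
      rwa [fr_χ_neg B hγ, inv_inv] at h1
  have hχ₂K : ∀ γ ∈ B₂.Γ, B₂.χ γ ∈ K₂ := by
    intro γ hγ
    rcases le_total 0 γ with h0 | h0
    · exact ((hB₂ _).1 (B₂.χ_mem γ hγ h0)).2
    · have h1 := K₂.inv_mem ((hB₂ _).1 (B₂.χ_mem (-γ) (B₂.Γ.neg_mem hγ) (by linarith))).2
      rwa [fr_χ_neg B₂ hγ, inv_inv] at h1
  have hwR : ∀ f ∈ B.R, w.Ge 0 f := fun f hf => hwA f (hRA f hf)
  have hwRD : ∀ f ∈ RD v B.R N hR.frac.1, w.Ge 0 f := by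
    intro f hf
    refine hwA f ((hB₂ f).2 ⟨hf.1, ?_⟩)
    obtain ⟨n, rfl, hn⟩ := (mem_fixO K N _ f).1 hf.2
    exact (mem_fixO K N _ _).2 ⟨n, rfl, fun σ hσ => hn σ hσ.1⟩
  have hds := ds_inst hR H hθ hwR hwRD B.Γ B.χ hχK B.χ_ne B.χ_add
  have hwχ : ∀ γ ∈ B.Γ, w (B.χ γ) = γ := by
    intro γ hγ
    obtain ⟨h1, h2, h3⟩ := hχ γ hγ
    have h4 := hwA _ h1 h2
    have h5 := hwA _ (B₂.loc _ h1 h2 h3) (inv_ne_zero h2)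
    rw [w.map_inv h2] at h5
    rw [w.map_div (B.χ_ne γ hγ) (B₂.χ_ne γ (hΓ γ hγ)), hwχ₂ γ (hΓ γ hγ)] at h4 h5
    linarith
  -- the condition `h1`
  have hh1 : ∀ b : N, (∀ σ ∈ D₀, σ ∈ H → σ b = b) →
      (∃ g ∈ {n : N | ∃ γ ∈ B.Γ, (n : Ω) = B.χ γ}, g * b ∈ Lc (intS B.R N) (resN v N)) →
      (resN w N).Ge 0 b → b ∈ Lc (intS B.R N) (resN v N) := by
    rintro b hb ⟨g, ⟨γ, hγ, hg⟩, hgb⟩ hwb
    rw [mem_Lc] at hgb ⊢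
    rw [resN_ge] at hwb
    have hbK : (b : Ω) ∈ K₂ := (mem_fixO K N _ _).2 ⟨b, rfl, fun σ hσ => hb σ hσ.1 hσ.2⟩
    rw [MulMemClass.coe_mul, hg] at hgb
    have h1 : B.χ γ * (b : Ω) ∈ B₂.R :=
      (hB₂ _).2 ⟨hgb, K₂.mul_mem (hEK _ (hKE _ (hχK γ hγ))) hbK⟩
    exact ((hB₂ _).1 (hcut _ hbK ⟨γ, hγ, h1⟩ hwb)).1
  -- the units
  set U := unitsOf v B₂.R B₂.loc with hU
  have hunit : ∀ γ (hγ : γ ∈ B₂.Γ), ∃ c ∈ unitsIn E,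
      c / Units.mk0 (B₂.χ γ) (B₂.χ_ne γ hγ) ∈ U := by
    intro γ hγ
    obtain ⟨a, ha, haf⟩ := (mem_fixO K N _ _).1 (hχ₂K γ hγ)
    have ha0 : a ≠ 0 := by
      rw [← coe_ne, ha]; exact B₂.χ_ne γ hγ
    obtain ⟨e, he, heγ⟩ := FR.tors hΓ γ hγ
    -- a monomial which makes `χ₂ γ` integral
    have hden : ∀ γ ∈ B₂.Γ, (e : 𝕂) * γ ∈ B.Γ → ∃ g ∈ {n : N | ∃ γ ∈ B.Γ, (n : Ω) = B.χ γ},
        (g : Ω) * B₂.χ γ ∈ CN v B.R N := by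
      intro γ hγ heγ
      have h1 : ∃ δ ∈ B.Γ, 0 ≤ δ + γ := by
        rcases le_total 0 γ with h0 | h0
        · exact ⟨0, B.Γ.zero_mem, by linarith⟩
        · refine ⟨-(e * γ), B.Γ.neg_mem heγ, ?_⟩
          have h1 : (1 : 𝕂) ≤ e := by exact_mod_cast he
          nlinarith
      obtain ⟨δ, hδ, hδγ⟩ := h1
      refine ⟨algebraMap K N ⟨B.χ δ, hχK δ hδ⟩, ⟨δ, hδ, rfl⟩, ?_⟩
      have h2 : B.χ δ * B₂.χ γ = (B.χ δ / B₂.χ δ) * B₂.χ (δ + γ) := by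
        rw [B₂.χ_add δ (hΓ δ hδ) γ hγ]
        have := B₂.χ_ne δ (hΓ δ hδ)
        field_simp
      have h3 : B.χ δ * B₂.χ γ ∈ B₂.R := by
        rw [h2]
        exact B₂.R.mul_mem (hχ δ hδ).1 (B₂.χ_mem _ (B₂.Γ.add_mem (hΓ δ hδ) hγ) hδγ)
      exact ((hB₂ _).1 h3).1
    obtain ⟨g, hg, hga⟩ := hden γ hγ heγ
    obtain ⟨g', hg', hga'⟩ := hden (-γ) (B₂.Γ.neg_mem hγ) (by
      rw [mul_neg]; exact B.Γ.neg_mem heγ)
    obtain ⟨c, hc0, hcf, -, hca, hcv⟩ := hds.descend hh1 ha0 (fun σ h1 h2 => haf σ ⟨h1, h2⟩)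
      ⟨g, hg, by rw [mem_Lc, MulMemClass.coe_mul, ha]; exact hga⟩
      ⟨g', hg', by
        rw [mem_Lc, MulMemClass.coe_mul]
        push_cast
        rw [ha, ← fr_χ_neg B₂ hγ]
        exact hga'⟩
      ⟨e, he, algebraMap K N ⟨B.χ (e * γ), hχK _ heγ⟩, ⟨e * γ, heγ, rfl⟩, by
        change (e : 𝕂) * w (a : Ω) = w (B.χ (e * γ))
        rw [hwχ _ heγ, ha, hwχ₂ γ hγ]⟩
    have hcΩ : (c : Ω) ≠ 0 := coe_ne.2 hc0
    have hcE : (c : Ω) ∈ E := (mem_fixO K N _ _).2 ⟨c, rfl, hcf⟩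
    rw [mem_Lc] at hca
    have h1 : ((c / a : N) : Ω) = (c : Ω) / B₂.χ γ := by
      push_cast
      rw [ha]
    have h2 : (c : Ω) / B₂.χ γ ∈ B₂.R := by
      rw [← h1]
      refine (hB₂ _).2 ⟨hca, ?_⟩
      rw [h1]
      exact div_mem (S := IntermediateField k Ω) (hEK _ hcE) (hχ₂K γ hγ)
    refine ⟨Units.mk0 (c : Ω) hcΩ, hcE, ?_, ?_⟩
    · rw [Units.val_div_eq_div_val]
      exact h2
    · rw [Units.val_div_eq_div_val]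
      change v ((c : Ω) / B₂.χ γ) = 0
      rw [← h1]
      exact hcv
  obtain ⟨ψ, hψ0, hψa, hψ⟩ := ALL61C.exists_chi B₂.Γ B₂.fg B₂.χ B₂.χ_ne B₂.χ_add (unitsIn E) U hunit
  have hψE : ∀ γ ∈ B₂.Γ, ψ γ ∈ E := fun γ hγ => (hψ γ hγ (hψ0 γ hγ)).1
  have hψU : ∀ γ ∈ B₂.Γ, B₂.Un (ψ γ / B₂.χ γ) := by
    intro γ hγ
    obtain ⟨h1, h2⟩ := (hψ γ hγ (hψ0 γ hγ)).2
    rw [Units.val_div_eq_div_val] at h1 h2
    exact ⟨h1, div_ne_zero (hψ0 γ hγ) (B₂.χ_ne γ hγ), h2⟩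
  have hψv : ∀ γ ∈ B₂.Γ, v (ψ γ) = γ := by
    intro γ hγ
    obtain ⟨-, -, h3⟩ := hψU γ hγ
    rw [v.map_div (hψ0 γ hγ) (B₂.χ_ne γ hγ), B₂.χ_val γ hγ] at h3
    linarith
  have hψU' : ∀ γ ∈ B₂.Γ, B₂.χ γ / ψ γ ∈ B₂.R := by
    intro γ hγ
    obtain ⟨h1, h2, h3⟩ := hψU γ hγ
    have h4 := B₂.loc _ h1 h2 h3
    rwa [inv_div] at h4
  -- the ring
  have hCm : ∀ x, x ∈ ICl v B.R E ↔ x ∈ B₂.R ∧ x ∈ E := by
    intro x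
    rw [hE, mem_ICl_fixO h hR H, hB₂]
    exact ⟨fun h1 => ⟨⟨h1.1, hEK _ h1.2⟩, h1.2⟩, fun h1 => ⟨h1.1.1, h1.2⟩⟩
  have hC0 : ∀ s ∈ ICl v B.R E, v.Ge 0 s := fun s hs => B₂.nonneg s ((hCm s).1 hs).1
  have hCl : ∀ s ∈ ICl v B.R E, s ≠ 0 → v s = 0 → s⁻¹ ∈ ICl v B.R E := fun s hs h1 h2 =>
    (hCm _).2 ⟨B₂.loc s ((hCm s).1 hs).1 h1 h2, E.inv_mem ((hCm s).1 hs).2⟩
  have hRC : ∀ f ∈ B.R, f ∈ ICl v B.R E := fun f hf =>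
    (hCm f).2 ⟨hRA f hf, hKE f (hR.frac.1 f hf)⟩
  have hψm : ∀ γ ∈ B₂.Γ, 0 ≤ γ → ψ γ ∈ ICl v B.R E := by
    intro γ hγ h0
    refine (hCm _).2 ⟨?_, hψE γ hγ⟩
    have h1 := B₂.R.mul_mem (hψU γ hγ).1 (B₂.χ_mem γ hγ h0)
    rwa [div_mul_cancel₀ _ (B₂.χ_ne γ hγ)] at h1
  -- the polynomial of `θ`
  set f : Polynomial Ω := (fH θ H).map (algebraMap N Ω) with hf
  have hfm : f.Monic := (fH_monic θ H).map _
  have hfd : f.natDegree = (IsTheta.orb θ H).card := by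
    rw [hf, (fH_monic θ H).natDegree_map, fH_natDegree]
  have hfc : ∀ i, f.coeff i ∈ ICl v B.R E := by
    intro i
    rw [hf, Polynomial.coeff_map]
    exact le_locv _ (coeff_mem_icl (fH_PI hθ H) (fun σ hσ => fH_map θ H hσ) i)
  have hf0 : f.eval (θ : Ω) = 0 := by
    rw [hf, show (θ : Ω) = algebraMap N Ω θ from rfl, eval_map_algebraMap, aeval_algebraMap_apply,
      aeval_def, eval₂_eq_eval_map, Algebra.algebraMap_self, Polynomial.map_id, fH_eval, map_zero]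
  have hind : ∀ c : ℕ → Ω, (∀ i, c i ∈ E) →
      ∑ i ∈ Finset.range f.natDegree, c i * (θ : Ω) ^ i = 0 → ∀ i < f.natDegree, c i = 0 := by
    intro c hc h0
    rw [hfd] at h0 ⊢
    exact fH_ind θ H c hc h0
  have hθA : (θ : Ω) ∈ B₂.R := (hB₂ _).2 ⟨intN_le_CN ⟨θ.2, hθ.int⟩,
    (mem_fixO K N _ _).2 ⟨θ, rfl, fun σ hσ => hθ.fix σ hσ.1⟩⟩
  have hA := A2_eq h hR hθ H hB₂
  refine ⟨{ Γ := B₂.Γ
            fg := B₂.fg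
            rk := B₂.rk
            χ := ψ
            χ_ne := hψ0
            χ_add := hψa
            χ_val := hψv
            y := B.y
            y_ne := B.y_ne
            y_pos := B.y_pos
            R := ICl v B.R E
            nonneg := hC0
            loc := hCl
            χ_mem := hψm
            y_mem := fun i => hRC _ (B.y_mem i)
            fgen := ?_
            gen := ?_
            alg := ?_ }, rfl, rfl, hψE, hψU, ?_, rfl⟩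
  · exact descend_fgen E B₂.R (ICl v B.R E) B₂.nonneg B₂.loc hCm θ hθA f hfm hfc hf0 hind hA
      B₂.Γ B₂.fg B₂.χ ψ B₂.χ_ne B₂.χ_val B₂.χ_add hψ0 hψv hψa hψE hψU' B₂.fgen
  · intro a ha hav
    obtain ⟨γ, hγ, hγ0, b₀, hb₀, b, hb, hab⟩ := B₂.gen a ((hCm a).1 ha).1 hav
    have h1 : B₂.χ γ = ψ γ * (B₂.χ γ / ψ γ) := by
      rw [mul_div_cancel₀ _ (hψ0 γ hγ)]
    obtain ⟨c, hcC, hac⟩ := descend_gen E B₂.R (ICl v B.R E) B₂.nonneg B₂.loc hCm θ hθA f hfm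
      hfc hf0 hind hA (κ := Option (Fin D)) (fun l => Option.elim l (ψ γ) B.y) (by
        intro l
        rcases l with _ | i
        · exact hψE γ hγ
        · exact ((hCm _).1 (hRC _ (B.y_mem i))).2) ha
      (fun l => Option.elim l ((B₂.χ γ / ψ γ) * b₀) b) (by
        intro l
        rcases l with _ | i
        · exact B₂.R.mul_mem (hψU' γ hγ) hb₀
        · exact hb i) (by
        rw [Fintype.sum_option]
        simp only [Option.elim_none, Option.elim_some]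
        rw [hab, hy, ← mul_assoc, ← h1])
    rw [Fintype.sum_option] at hac
    simp only [Option.elim_none, Option.elim_some] at hac
    exact ⟨γ, hγ, hγ0, c none, hcC none, fun i => c (some i), fun i => hcC (some i), hac⟩
  · intro g
    obtain ⟨P, hP, hPg⟩ := B.alg g
    have hle : B.R ≤ ICl v B.R E := hRC
    refine ⟨P.map (Subalgebra.inclusion hle).toRingHom, ?_, ?_⟩
    · intro h0
      apply hP
      exact Polynomial.map_injective _ (Subalgebra.inclusion_injective hle) (by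
        rw [h0, Polynomial.map_zero])
    · rw [aeval_def, eval₂_map]
      exact hPg
  · intro γ hγ
    have h1 := hψU' γ (hΓ γ hγ)
    obtain ⟨h2, h3, h4⟩ := hχ γ hγ
    have h5 : B.χ γ / ψ γ = (B.χ γ / B₂.χ γ) * (B₂.χ γ / ψ γ) := by
      rw [div_mul_div_cancel₀ (B₂.χ_ne γ (hΓ γ hγ))]
    refine ⟨(hCm _).2 ⟨?_, ?_⟩, div_ne_zero (B.χ_ne γ hγ) (hψ0 γ (hΓ γ hγ)), ?_⟩
    · change B.χ γ / ψ γ ∈ B₂.R
      rw [h5]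
      exact B₂.R.mul_mem h2 h1
    · exact div_mem (S := IntermediateField k Ω) (hKE _ (hχK γ hγ)) (hψE γ (hΓ γ hγ))
    · change v (B.χ γ / ψ γ) = 0
      rw [v.map_div (B.χ_ne γ hγ) (hψ0 γ (hΓ γ hγ)), B.χ_val γ hγ, hψv γ (hΓ γ hγ), sub_self]

/-- Row (e): `C = ICl v B.R E` is the ring of a frame; `w` is a content valuation of `B₂`. -/
theorem descend_frame (h : Ctx0 k v nn) (B : FR k v r D) {K : IntermediateField k Ω}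
    {N : IntermediateField K Ω} [FiniteDimensional K N] (hR : NRing v K B.R)
    (H : Subgroup (N ≃ₐ[K] N)) (B₂ : FR k v r D)
    (hB₂ : ∀ f, f ∈ B₂.R ↔ f ∈ CN v B.R N ∧ f ∈ fixO K N (DP v B.R N hR.frac.1 ⊓ H))
    (hΓ : ∀ γ ∈ B.Γ, γ ∈ B₂.Γ) (hχ : ∀ γ ∈ B.Γ, B₂.Un (B.χ γ / B₂.χ γ)) (hy : B₂.y = B.y)
    (hw : ∃ w : OVal 𝕂 Ω, CW B₂ w) :
    ∃ C : FR k v r D, C.R = ICl v B.R (fixO K N H) ∧ C.Γ = B₂.Γ ∧
      (∀ γ ∈ B₂.Γ, C.χ γ ∈ fixO K N H) ∧ (∀ γ ∈ B₂.Γ, B₂.Un (C.χ γ / B₂.χ γ)) ∧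
      (∀ γ ∈ B.Γ, C.Un (B.χ γ / C.χ γ)) ∧ C.y = B.y := by
  obtain ⟨w, hw⟩ := hw
  refine descend_core h B hR H B₂ hB₂ hΓ hχ hy w hw.val hw.nonneg ?_
  rintro b - ⟨γ, hγ, h1⟩ hwb
  by_cases hb0 : b = 0
  · rw [hb0]; exact zero_mem _
  obtain ⟨h9, h10, h11⟩ := hχ γ hγ
  have h12 := B₂.loc _ h9 h10 h11
  have hwχ : w (B.χ γ) = γ := by
    have h4 := hw.nonneg _ h9 h10
    have h5 := hw.nonneg _ h12 (inv_ne_zero h10)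
    rw [w.map_inv h10] at h5
    rw [w.map_div (B.χ_ne γ hγ) (B₂.χ_ne γ (hΓ γ hγ)), hw.val γ (hΓ γ hγ)] at h4 h5
    linarith
  have h2 : B.χ γ * b ≠ 0 := mul_ne_zero (B.χ_ne γ hγ) hb0
  obtain ⟨h3, h4⟩ := hw.mem _ h1 h2
  have h6 : γ ≤ w (B.χ γ * b) := by
    rw [w.map_mul (B.χ_ne γ hγ) hb0, hwχ]
    have := hwb hb0
    linarith
  set δ := w (B.χ γ * b) with hδ
  have h7 : δ - γ ∈ B₂.Γ := B₂.Γ.sub_mem h3 (hΓ γ hγ)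
  have h8 : B₂.χ (δ - γ) ∈ B₂.R := B₂.χ_mem _ h7 (by linarith)
  have h13 : B₂.χ δ = B₂.χ (δ - γ) * B₂.χ γ := by
    rw [← B₂.χ_add _ h7 _ (hΓ γ hγ), sub_add_cancel]
  have h14 : b = (B.χ γ * b / B₂.χ δ) * B₂.χ (δ - γ) * (B.χ γ / B₂.χ γ)⁻¹ := by
    rw [h13]
    have h15 := B₂.χ_ne _ h7
    have h16 := B₂.χ_ne γ (hΓ γ hγ)
    have h17 := B.χ_ne γ hγ
    field_simp
  rw [h14]
  exact B₂.R.mul_mem (B₂.R.mul_mem h4 h8) h12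

end Pool.Agent.ALLG
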