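import Pool.Agent.Lib.ALLO.Defs

/-!
# TANK G, limit level: frames without `full`

The frames of `ALLO.Defs` without the field `full`: `Γ` is only what the boundary sees.  Instead,
`Γ` has rational rank `r` (a parameter of the structure), and the statements are for `n = r + D`
(`n` the transcendence degree of the big field).  `locv`, `icl`, `ICl`, `decP` are those of `ALLO`.
-/

set_option autoImplicit false

namespace Pool.Agent.ALLG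

open Pool.Agent.TAO (OVal VPos Ctx0)
open Pool.Agent.LU1 (FracIs fixO)
open Pool.Agent.ALLO (locv icl ICl decP)

universe u w

section

variable {k Ω : Type u} [Field k] [Field Ω] [Algebra k Ω]
  {𝕂 : Type w} [Field 𝕂] [LinearOrder 𝕂] [IsStrictOrderedRing 𝕂]

/-- A frame of rank `r` with `D` free parameters. `χ` matters only on `Γ`. -/
structure FR (k : Type u) {Ω : Type u} [Field k] [Field Ω] [Algebra k Ω] {𝕂 : Type w} [Field 𝕂]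
    [LinearOrder 𝕂] [IsStrictOrderedRing 𝕂] (v : OVal 𝕂 Ω) (r D : ℕ) where
  /-- the group of exponents -/
  Γ : AddSubgroup 𝕂
  fg : Γ.FG
  rk : ∃ X : Fin r → 𝕂, LinearIndependent ℚ X ∧ (∀ i, X i ∈ Γ) ∧
    ∀ γ ∈ Γ, γ ∈ Submodule.span ℚ (Set.range X)
  /-- the monomials -/
  χ : 𝕂 → Ω
  χ_ne : ∀ γ ∈ Γ, χ γ ≠ 0
  χ_add : ∀ γ ∈ Γ, ∀ δ ∈ Γ, χ (γ + δ) = χ γ * χ δ
  χ_val : ∀ γ ∈ Γ, v (χ γ) = γ
  /-- the free parameters -/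
  y : Fin D → Ω
  y_ne : ∀ i, y i ≠ 0
  y_pos : ∀ i, 0 < v (y i)
  /-- the ring -/
  R : Subalgebra k Ω
  nonneg : ∀ f ∈ R, v.Ge 0 f
  loc : ∀ f ∈ R, f ≠ 0 → v f = 0 → f⁻¹ ∈ R
  χ_mem : ∀ γ ∈ Γ, 0 ≤ γ → χ γ ∈ R
  y_mem : ∀ i, y i ∈ R
  fgen : ∃ F : Finset Ω, R = locv v (Algebra.adjoin k ((F : Set Ω) ∪ χ '' {γ | γ ∈ Γ ∧ 0 ≤ γ}))
  gen : ∀ f ∈ R, VPos v f → ∃ γ ∈ Γ, 0 < γ ∧ ∃ a ∈ R, ∃ b : Fin D → Ω, (∀ i, b i ∈ R) ∧
    f = χ γ * a + ∑ i, y i * b i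
  alg : ∀ g : Ω, IsAlgebraic R g

variable {v : OVal 𝕂 Ω} {r D : ℕ}

/-- The frame is rational: its ring is the localisation of `k[χ(Γ ≥ 0), y]`. -/
def FR.Rat (F : FR k v r D) : Prop :=
  F.R = locv v (Algebra.adjoin k (F.χ '' {γ | γ ∈ F.Γ ∧ 0 ≤ γ} ∪ Set.range F.y))

/-- `f` is a unit of `F.R`. -/
def FR.Un (F : FR k v r D) (f : Ω) : Prop := f ∈ F.R ∧ f ≠ 0 ∧ v f = 0

/-- `f` is a monomial times a unit. -/
def FR.Mono (F : FR k v r D) (f : Ω) : Prop := f ≠ 0 ∧ v f ∈ F.Γ ∧ F.Un (f / F.χ (v f))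

/-- `F'` is a refinement of `F` (of the same field). -/
structure FR.Le (F F' : FR k v r D) : Prop where
  le : F.R ≤ F'.R
  Γ_le : ∀ γ ∈ F.Γ, γ ∈ F'.Γ
  χ_un : ∀ γ ∈ F.Γ, F'.Un (F.χ γ / F'.χ γ)
  den : ∀ f ∈ F'.R, ∃ a ∈ F.R, ∃ b ∈ F.R, F'.Mono b ∧ f = a / b

/-- `F₁` has the same parameters as `F` and a bigger ring. -/
structure FR.Same (F F₁ : FR k v r D) : Prop where
  Γ_eq : F₁.Γ = F.Γ
  χ_eq : ∀ γ ∈ F.Γ, F₁.χ γ = F.χ γ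
  y_eq : F₁.y = F.y
  le : F.R ≤ F₁.R

/-- `(y)^M R`, as a `k`-subspace of `Ω`. -/
def FR.YI (F : FR k v r D) (M : ℕ) : Submodule k Ω :=
  Submodule.span k (Set.range F.y) ^ M * F.R.toSubmodule

/-- `f = χ(κ) (P(y) + e + χ(γ) a)`, `P ≠ 0` a form of degree `M` over `k`, `e ∈ (y)^(M+1) R`,
`γ > 0`, `a ∈ R`: the content of `f` is `κ`, its order `M`. -/
def FR.Ord (F : FR k v r D) (f : Ω) (κ : 𝕂) (M : ℕ) : Prop :=
  κ ∈ F.Γ ∧ ∃ P : MvPolynomial (Fin D) k, P.IsHomogeneous M ∧ P ≠ 0 ∧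
    ∃ e ∈ F.YI (M + 1), ∃ γ ∈ F.Γ, 0 < γ ∧ ∃ a ∈ F.R,
      f = F.χ κ * (MvPolynomial.aeval F.y P + e + F.χ γ * a)

/-- A derivation of `E` which is a `k`-linear combination of the logarithmic derivations dual to
`dlog χ, dy`. -/
def FR.LogD (F : FR k v r D) {E : IntermediateField k Ω} (d : Derivation k E E) : Prop :=
  (∀ γ ∈ F.Γ, ∃ c : k, ∀ e : E, (e : Ω) = F.χ γ → (d e : Ω) = algebraMap k Ω c * F.χ γ) ∧
  ∀ j, ∃ c : k, ∀ e : E, (e : Ω) = F.y j → (d e : Ω) = algebraMap k Ω c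

/-- `f = χ(v f) u`, `u` a unit of `S`. -/
def FR.MonoIn (F : FR k v r D) (S : Subalgebra k Ω) (f : Ω) : Prop :=
  f ≠ 0 ∧ v f ∈ F.Γ ∧ f / F.χ (v f) ∈ S

end

end Pool.Agent.ALLG
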