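import Pool.Agent.Lib.ALLG.Defs
import Pool.Agent.Lib.ALLZO.ZTS
import Pool.Agent.Lib.ALLG.ZDefs

/-!
# TANK G: port of `Lib/ALLZO/ZTS.lean` to the frames `ALLG.FR` (no condition `full`)
-/

set_option autoImplicit false

namespace Pool.Agent.ALLG.H18

open Pool.Agent.ALLZO
open Pool.Agent.TAO (Ctx0)
open Pool.Agent.ALLZO.H18
open Pool.Agent.ALLO (locv)
open Pool.Agent.LU1 (FracIs fixO mem_fixO)
open Pool.Agent.TAO (OVal VPos)
open Pool.Agent.ALLZO (GoodBasis)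
open Pool.Agent.ALL_h18 (TS0 TS InX ymon nv YP)
open Pool.Agent.ALLO (ICl decP)
open Pool.Agent.ALLZO (NRing CN DP FD RD AH le_AH)
open Pool.Agent.ALLZO (AX)

universe u w'

variable {k Ω : Type u} [Field k] [Field Ω] [Algebra k Ω] {𝕂 : Type w'} [Field 𝕂] [LinearOrder 𝕂]
  [IsStrictOrderedRing 𝕂] {v : OVal 𝕂 Ω} {D : ℕ}
variable {K : IntermediateField k Ω} {N : IntermediateField K Ω}

/-- The data of the instance: `B` the frame of `K`, `B₁` the frame with the ring `RD`, `w` the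
content, `u` a basis of `Γ`. -/
structure ZD (p : ℕ) {r : ℕ} (n : ℕ) (B B₁ : FR k v r D) (hR : NRing v K B.R)
    (N : IntermediateField K Ω) (H : Subgroup (N ≃ₐ[K] N)) (w : OVal 𝕂 Ω) (u : Fin r → 𝕂) :
    Prop where
  ctx : Ctx0 k v n
  rpos : 0 < r
  hn : n = r + D
  idx : H.relIndex (DP v B.R N hR.frac.1) < p
  same : B.Same B₁
  ring : B₁.R = RD v B.R N hR.frac.1
  cont : ContP p B₁ (FD v B.R N hR.frac.1) w
  basis : GoodBasis B.Γ ∅ u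
  coord : ∀ a, (∃ M : ℕ, (∏ i, B.χ (u i)) ^ M * a ∈ AH v B.R (DP v B.R N hR.frac.1 ⊓ H)) →
    ∃ c : (Fin r → Fin p) × (Fin D → Fin p) → Ω,
      (∀ μ, ∃ M : ℕ, (∏ i, B.χ (u i)) ^ M * c μ ∈ AH v B.R (DP v B.R N hR.frac.1 ⊓ H)) ∧
      a = ∑ μ, mm (fun i => B.χ (u i)) B.y μ * c μ ^ p

variable {p n r : ℕ} {B B₁ : FR k v r D} {hR : NRing v K B.R} {H : Subgroup (N ≃ₐ[K] N)}
  {w : OVal 𝕂 Ω} {u : Fin r → 𝕂}

theorem ZD.y_mem_K (B : FR k v r D) (hR : NRing v K B.R) (H : Subgroup (N ≃ₐ[K] N)) (j : Fin D) :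
    B.y j ∈ fixO K N H := base_mem_fixO hR.frac.1 H (hR.frac.1 _ (B.y_mem j))

theorem ZD.x_mem_K (h : ZD p n B B₁ hR N H w u) (i : Fin r) :
    B.χ (u i) ∈ fixO K N (DP v B.R N hR.frac.1 ⊓ H) :=
  base_mem_fixO hR.frac.1 _ (hR.frac.1 _ (B.χ_mem _ (h.basis.mem i) (h.basis.pos i).le))

end Pool.Agent.ALLG.H18
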