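import Pool.Agent.Lib.ALLG.Defs
import Pool.Agent.Lib.ALLZO.T2
import Pool.Agent.Lib.ALLG.ZTS
import Pool.Agent.Lib.ALLG.NFD
import Pool.Agent.Lib.ALLG.A2

/-!
# TANK G: port of `Lib/ALLZO/T2.lean` to the frames `ALLG.FR` (no condition `full`)
-/

set_option autoImplicit false
set_option linter.unusedSectionVars false

open Polynomial

namespace Pool.Agent.ALLG.H18

open Pool.Agent.ALLZO
open Pool.Agent.TAO (Ctx0)
open Pool.Agent.ALLZO.H18
open Pool.Agent.ALLO (locv)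
open Pool.Agent.LU1 (FracIs fixO mem_fixO)
open Pool.Agent.TAO (OVal VPos)
open Pool.Agent.ALLZO (GoodBasis)
open Pool.Agent.ALL_h18 (TS0 TS InX ymon nv YP)
open Pool.Agent.ALLO (ICl decP)
open Pool.Agent.ALLZO (NRing CN DP FD RD AH le_AH intN mem_AH)
open Pool.Agent.ALLZO (AX)
open Pool.Agent.ALLZO (fr_χ_zero fr_χ_neg fr_χ_nsmul fr_χ_zsmul χ_sum)

universe u w'

variable {k Ω : Type u} [Field k] [Field Ω] [Algebra k Ω] {𝕂 : Type w'} [Field 𝕂] [LinearOrder 𝕂]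
  [IsStrictOrderedRing 𝕂] {v : OVal 𝕂 Ω} {D : ℕ}
variable {K : IntermediateField k Ω} {N : IntermediateField K Ω}
variable {p n r : ℕ} {B B₁ : FR k v r D} {hR : NRing v K B.R} {H : Subgroup (N ≃ₐ[K] N)}
  {w : OVal 𝕂 Ω} {u : Fin r → 𝕂}

/-- The decomposition group preserves `C_N`. -/
theorem CN_map (hR : NRing v K B.R) {σ : N ≃ₐ[K] N} (hσ : σ ∈ DP v B.R N hR.frac.1) {f : N}
    (hf : (f : Ω) ∈ CN v B.R N) : ((σ f : N) : Ω) ∈ CN v B.R N := by
  obtain ⟨a, ha, b, hb, hb0, hvb, hab⟩ := hf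
  let a' : N := ⟨a, ha.1⟩
  let b' : N := ⟨b, hb.1⟩
  have h1 : f = a' / b' := Subtype.ext hab
  have h2 := ALLZO.val_map hR.nonneg hσ (n := b') hb.2 hb0 hvb
  refine ⟨(σ a' : N), ⟨(σ a').2, ALLZO.int_map hR.frac.1 σ ha.2⟩, (σ b' : N),
    ⟨(σ b').2, ALLZO.int_map hR.frac.1 σ hb.2⟩, h2.1, h2.2, ?_⟩
  rw [h1, map_div₀]
  rfl

theorem X_pow (B : FR k v r D) (hu : GoodBasis B.Γ ∅ u) (M : ℕ) :
    (∏ i, B.χ (u i)) ^ M = B.χ (gM u M) := by
  rw [gM, (χ_sum B Finset.univ u hu.mem fun _ => (M : ℤ)).2, ← Finset.prod_pow]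
  exact Finset.prod_congr rfl fun i _ => (zpow_natCast _ _).symm

namespace ZD

open Pool.Agent.ALLZO
open Pool.Agent.TAO (Ctx0)
variable (h : ZD p n B B₁ hR N H w u)

include h

theorem d2ctx : TAO.Ctx0 k v n := h.ctx

theorem χ₁ {γ : 𝕂} (hγ : γ ∈ B.Γ) : B₁.χ γ = B.χ γ := h.same.χ_eq γ hγ

theorem Γ₁ : B₁.Γ = B.Γ := h.same.Γ_eq

theorem mem_RD_iff {f : Ω} : f ∈ B₁.R ↔ f ∈ CN v B.R N ∧ f ∈ FD v B.R N hR.frac.1 := by
  rw [h.ring]
  exact ALLZO.mem_RD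

/-- Elements of `RD[1/x]` of nonnegative content are in `RD`. -/
theorem base_cut {c : Ω} (hc : c ∈ FD v B.R N hR.frac.1) {M : ℕ}
    (hM : (∏ i, B.χ (u i)) ^ M * c ∈ CN v B.R N) (hw : w.Ge 0 c) : c ∈ B₁.R := by
  by_cases hc0 : c = 0
  · rw [hc0]
    exact B₁.R.zero_mem
  rw [X_pow B h.basis M] at hM
  have hγ := gM_mem h.basis M
  have hγ1 : gM u M ∈ B₁.Γ := by rw [h.Γ₁]; exact hγ
  have hχ0 := B.χ_ne _ hγ
  have hg : B.χ (gM u M) * c ∈ B₁.R := by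
    rw [h.mem_RD_iff]
    refine ⟨hM, mul_mem (S := IntermediateField k Ω) ?_ hc⟩
    exact base_mem_fixO hR.frac.1 _ (hR.frac.1 _ (B.χ_mem _ hγ (gM_nonneg h.basis M)))
  have hg0 : B.χ (gM u M) * c ≠ 0 := mul_ne_zero hχ0 hc0
  have h1 := h.cont.div _ hg hg0
  have h2 := h.cont.val _ hg hg0
  have h3 : w (B.χ (gM u M) * c) = gM u M + w c := by
    rw [w.map_mul hχ0 hc0, ← h.χ₁ hγ, h.cont.χ _ hγ1]
  rw [h3] at h1 h2
  have h4 : w c ∈ B₁.Γ := by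
    have := B₁.Γ.sub_mem h2 hγ1
    rwa [add_sub_cancel_left] at this
  have h5 : c = B₁.χ (w c) * (B.χ (gM u M) * c / B₁.χ (gM u M + w c)) := by
    rw [B₁.χ_add _ hγ1 _ h4, h.χ₁ hγ]
    have := B₁.χ_ne _ h4
    field_simp
  rw [h5]
  exact B₁.R.mul_mem (B₁.χ_mem _ h4 (hw hc0)) h1

/-- `w ∘ σ ≥ 0` on `A₂`. -/
theorem w_ge [FiniteDimensional K N] {σ : N ≃ₐ[K] N} (hσ : σ ∈ DP v B.R N hR.frac.1) {a : N}
    (ha : (a : Ω) ∈ AH v B.R (DP v B.R N hR.frac.1 ⊓ H)) : w.Ge 0 ((σ a : N) : Ω) := by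
  have h1 : IsIntegral (RD v B.R N hR.frac.1) (a : Ω) :=
    (ALLZO.mem_CN_iff hR H (mem_AH.1 ha).2).1 (mem_AH.1 ha).1
  -- `σ` fixes `RD`
  obtain ⟨P, hP, hPa⟩ := h1
  have hRN : ∀ f : RD v B.R N hR.frac.1, (f : Ω) ∈ N := fun f => ALLZO.CN_le _ f.2.1
  let ι : RD v B.R N hR.frac.1 →+* N :=
    { toFun := fun f => ⟨f, hRN f⟩
      map_one' := rfl
      map_mul' := fun _ _ => rfl
      map_zero' := rfl
      map_add' := fun _ _ => rfl }
  have hfix : (σ : N →+* N).comp ι = ι := by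
    ext f
    obtain ⟨m, hm, hm'⟩ := (mem_fixO K N _ _).1 f.2.2
    have h2 : ι f = m := Subtype.ext hm.symm
    change ((σ (ι f) : N) : Ω) = ((ι f : N) : Ω)
    rw [h2, hm' σ hσ]
  have h0 : eval₂ ι a P = 0 := by
    apply Subtype.ext
    have := hom_eval₂ P ι (algebraMap N Ω) a
    rw [show ((eval₂ ι a P : N) : Ω) = algebraMap N Ω (eval₂ ι a P) from rfl, this]
    exact hPa
  have h3 : eval₂ ι (σ a) P = 0 := by
    have := hom_eval₂ P ι (σ : N →+* N) a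
    rw [hfix, h0, _root_.map_zero] at this
    exact this.symm
  have h4 : IsIntegral (RD v B.R N hR.frac.1) ((σ a : N) : Ω) := by
    refine ⟨P, hP, ?_⟩
    have := hom_eval₂ P ι (algebraMap N Ω) (σ a)
    rw [h3, _root_.map_zero] at this
    exact this.symm
  refine TAO.ge_of_isIntegral (O := RD v B.R N hR.frac.1) (fun f => ?_) h4
  exact h.cont.nonneg f (by rw [h.ring]; exact f.2)

/-- Positivity of `w ∘ σ` implies positivity of `v`. -/
theorem w_pos [FiniteDimensional K N] {σ : N ≃ₐ[K] N} (hσ : σ ∈ DP v B.R N hR.frac.1) {a : N}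
    (ha : (a : Ω) ∈ AH v B.R (DP v B.R N hR.frac.1 ⊓ H)) (hw : VPos w ((σ a : N) : Ω)) :
    VPos v (a : Ω) := by
  by_contra hneg
  unfold VPos at hneg
  push Not at hneg
  obtain ⟨ha0, hva⟩ := hneg
  have hva' : v (a : Ω) = 0 :=
    le_antisymm hva (ALLZO.CN_nonneg hR.nonneg _ (mem_AH.1 ha).1 ha0)
  have h1 : ((a⁻¹ : N) : Ω) ∈ AH v B.R (DP v B.R N hR.frac.1 ⊓ H) := by
    push_cast
    exact mem_AH.2 ⟨ALLZO.CN_inv (mem_AH.1 ha).1 ha0 hva', inv_mem (mem_AH.1 ha).2⟩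
  have h2 := h.w_ge hσ h1
  have haN : a ≠ 0 := fun h => ha0 (by rw [h]; rfl)
  have h3 : ((σ a : N) : Ω) ≠ 0 := fun h => haN ((map_eq_zero_iff σ σ.injective).1 (Subtype.ext h))
  have h4 := hw h3
  rw [map_inv₀] at h2
  push_cast at h2
  have h5 := h2 (inv_ne_zero h3)
  rw [w.map_inv h3] at h5
  linarith

/-- The cut. -/
theorem cut_aux [FiniteDimensional K N] {a : N}
    (ha : ∀ σ ∈ DP v B.R N hR.frac.1 ⊓ H, σ a = a) {M : ℕ}
    (hM : (∏ i, B.χ (u i)) ^ M * (a : Ω) ∈ CN v B.R N)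
    (hw : ∀ σ ∈ DP v B.R N hR.frac.1, w.Ge 0 ((σ a : N) : Ω)) : (a : Ω) ∈ CN v B.R N := by
  classical
  have hfin : Finite (N ≃ₐ[K] N) := inferInstance
  have hfD : Fintype (DP v B.R N hR.frac.1) := Fintype.ofFinite _
  have hXR : (∏ i, B.χ (u i)) ∈ B.R :=
    B.R.prod_mem fun i _ => B.χ_mem _ (h.basis.mem i) (h.basis.pos i).le
  have hXC : (∏ i, B.χ (u i)) ∈ CN v B.R N := ALLZO.intN_le_CN (ALLZO.le_intN hR.frac.1 hXR)
  -- the ring of the elements of `C_N[1/x]` with `w ≥ 0`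
  let T : Subring N :=
    { carrier := {f | (∃ M : ℕ, (∏ i, B.χ (u i)) ^ M * (f : Ω) ∈ CN v B.R N) ∧ w.Ge 0 (f : Ω)}
      mul_mem' := by
        rintro a b ⟨⟨M, hM⟩, ha⟩ ⟨⟨L, hL⟩, hb⟩
        refine ⟨⟨M + L, ?_⟩, ?_⟩
        · have : (∏ i, B.χ (u i)) ^ (M + L) * ((a * b : N) : Ω) =
              ((∏ i, B.χ (u i)) ^ M * (a : Ω)) * ((∏ i, B.χ (u i)) ^ L * (b : Ω)) := by
            push_cast
            ring
          rw [this]
          exact mul_mem hM hL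
        · have := ha.mul hb
          rw [add_zero] at this
          exact this
      one_mem' := ⟨⟨0, by rw [pow_zero, one_mul]; exact one_mem _⟩, fun _ => w.map_one.ge⟩
      add_mem' := by
        rintro a b ⟨⟨M, hM⟩, ha⟩ ⟨⟨L, hL⟩, hb⟩
        refine ⟨⟨M + L, ?_⟩, ha.add hb⟩
        have : (∏ i, B.χ (u i)) ^ (M + L) * ((a + b : N) : Ω) =
            (∏ i, B.χ (u i)) ^ L * ((∏ i, B.χ (u i)) ^ M * (a : Ω)) +
              (∏ i, B.χ (u i)) ^ M * ((∏ i, B.χ (u i)) ^ L * (b : Ω)) := by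
          push_cast
          ring
        rw [this]
        exact add_mem (mul_mem (pow_mem hXC _) hM) (mul_mem (pow_mem hXC _) hL)
      zero_mem' := ⟨⟨0, by rw [pow_zero, one_mul]; exact zero_mem _⟩, fun h => absurd rfl h⟩
      neg_mem' := by
        rintro a ⟨⟨M, hM⟩, ha⟩
        refine ⟨⟨M, ?_⟩, ha.neg⟩
        have : (∏ i, B.χ (u i)) ^ M * ((-a : N) : Ω) = -((∏ i, B.χ (u i)) ^ M * (a : Ω)) := by
          push_cast
          ring
        rw [this]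
        exact neg_mem hM }
  let xN : N := ⟨∏ i, B.χ (u i), ALLZO.CN_le _ hXC⟩
  have hxfix : ∀ σ : N ≃ₐ[K] N, σ xN = xN := fun σ => by
    have : xN = algebraMap K N ⟨_, hR.frac.1 _ hXR⟩ := rfl
    rw [this]
    exact σ.commutes _
  have hmem : ∀ σ : DP v B.R N hR.frac.1, (σ : N ≃ₐ[K] N) a ∈ T := by
    intro σ
    refine ⟨⟨M, ?_⟩, hw σ σ.2⟩
    have h1 := CN_map hR σ.2 (f := xN ^ M * a) (by push_cast; exact hM)
    rw [map_mul, map_pow, hxfix] at h1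
    push_cast at h1
    exact h1
  set P : N[X] := ∏ σ : DP v B.R N hR.frac.1, (X - C ((σ : N ≃ₐ[K] N) a)) with hP
  have hmon : P.Monic := monic_prod_of_monic _ _ fun σ _ => monic_X_sub_C _
  have hcoefT : ∀ j, P.coeff j ∈ T := fun j =>
    coeff_prod_mem T Finset.univ (fun σ : DP v B.R N hR.frac.1 => (σ : N ≃ₐ[K] N) a)
      (fun σ _ => hmem σ) j
  have hfix : ∀ σ ∈ DP v B.R N hR.frac.1, P.map (σ : N →+* N) = P := by
    intro σ hσ
    rw [hP, Polynomial.map_prod]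
    refine Fintype.prod_equiv (Equiv.mulLeft (⟨σ, hσ⟩ : DP v B.R N hR.frac.1)) _ _ fun τ => ?_
    simp
  have hcoef : ∀ j, ((P.coeff j : N) : Ω) ∈ RD v B.R N hR.frac.1 := by
    intro j
    obtain ⟨⟨L, hL⟩, hwj⟩ := hcoefT j
    rw [← h.ring]
    refine h.base_cut ((mem_fixO K N _ _).2 ⟨P.coeff j, rfl, fun σ hσ => ?_⟩) hL hwj
    have h1 := congrArg (fun Q => Q.coeff j) (hfix σ hσ)
    rw [Polynomial.coeff_map] at h1
    exact h1
  have hroot : P.eval a = 0 := by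
    rw [hP, eval_prod]
    refine Finset.prod_eq_zero (Finset.mem_univ (1 : DP v B.R N hR.frac.1)) ?_
    simp
  have hint : IsIntegral (RD v B.R N hR.frac.1) (a : Ω) := by
    have h1 : P.map (algebraMap N Ω) ∈
        Polynomial.lifts (algebraMap (RD v B.R N hR.frac.1) Ω) := by
      rw [Polynomial.lifts_iff_coeff_lifts]
      intro j
      rw [Polynomial.coeff_map]
      exact ⟨⟨_, hcoef j⟩, rfl⟩
    obtain ⟨Q, hQ, -, hQm⟩ := Polynomial.lifts_and_natDegree_eq_and_monic h1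
      (hmon.map (algebraMap N Ω))
    refine ⟨Q, hQm, ?_⟩
    rw [← eval_map, hQ, eval_map]
    have h2 := hom_eval₂ P (RingHom.id N) (algebraMap N Ω) a
    rw [RingHom.comp_id] at h2
    have h3 : eval₂ (RingHom.id N) a P = 0 := hroot
    rw [h3, _root_.map_zero] at h2
    exact h2.symm
  exact (ALLZO.mem_CN_iff hR H ((mem_fixO K N _ _).2 ⟨a, rfl, ha⟩)).2 hint

/-- The field `K₂` as an extension of the decomposition field. -/
theorem low_field [FiniteDimensional K N] :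
    ∃ L : IntermediateField (FD v B.R N hR.frac.1) Ω,
      FiniteDimensional (FD v B.R N hR.frac.1) L ∧
      Module.finrank (FD v B.R N hR.frac.1) L < p ∧
      ∀ a : Ω, a ∈ L ↔ a ∈ fixO K N (DP v B.R N hR.frac.1 ⊓ H) := by
  have h1 := Pool.Agent.ALLZ.finrank_fixO (K := K) (N := N) (A := DP v B.R N hR.frac.1 ⊓ H)
    (B := DP v B.R N hR.frac.1) inf_le_left
  refine ⟨IntermediateField.extendScalars (F := FD v B.R N hR.frac.1)
    (Pool.Agent.ALLZ.fixO_anti (K := K) (N := N) (A := DP v B.R N hR.frac.1 ⊓ H)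
    (B := DP v B.R N hR.frac.1) inf_le_left), h1.1, ?_, fun a => Iff.rfl⟩
  have h2 := h1.2
  rw [Subgroup.inf_relIndex_left] at h2
  exact h2.trans_lt h.idx

/-- The valuation `w ∘ σ` on `L`. -/
theorem exists_W {σ : N ≃ₐ[K] N} (hσ : σ ∈ DP v B.R N hR.frac.1)
    (L : IntermediateField (FD v B.R N hR.frac.1) Ω)
    (hmem : ∀ a : Ω, a ∈ L ↔ a ∈ fixO K N (DP v B.R N hR.frac.1 ⊓ H)) :
    ∃ W : OVal 𝕂 L, (∀ f : FD v B.R N hR.frac.1, f ≠ 0 →
        W (algebraMap (FD v B.R N hR.frac.1) L f) = w (f : Ω)) ∧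
      ∀ (a : L) (b : fixO K N (DP v B.R N hR.frac.1 ⊓ H)), (a : Ω) = (b : Ω) →
        W a = WS w _ (fixO_le_N _) σ b := by
  let ψ : L →+* fixO K N (DP v B.R N hR.frac.1 ⊓ H) :=
    { toFun := fun a => ⟨a, (hmem a).1 a.2⟩
      map_one' := rfl
      map_mul' := fun _ _ => rfl
      map_zero' := rfl
      map_add' := fun _ _ => rfl }
  refine ⟨TAO.rcomap ψ (WS w _ (fixO_le_N _) σ), fun f hf => ?_, fun a b hab => ?_⟩
  · rw [TAO.rcomap_apply, WS_apply]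
    obtain ⟨m, hm, hm'⟩ := (mem_fixO K N _ _).1 f.2
    have h3 : (⟨(ψ (algebraMap (FD v B.R N hR.frac.1) L f) : Ω),
        fixO_le_N _ _ (ψ (algebraMap (FD v B.R N hR.frac.1) L f)).2⟩ : N) = m :=
      Subtype.ext hm.symm
    rw [h3, hm' σ hσ, hm]
  · rw [TAO.rcomap_apply]
    congr 1
    exact Subtype.ext hab

/-- Torsion below `p`. -/
theorem tors_aux [FiniteDimensional K N] {σ : N ≃ₐ[K] N} (hσ : σ ∈ DP v B.R N hR.frac.1)
    (a : fixO K N (DP v B.R N hR.frac.1 ⊓ H)) (ha : a ≠ 0) :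
    ∃ e : ℕ, 0 < e ∧ e < p ∧ (e : 𝕂) * WS w _ (fixO_le_N _) σ a ∈ B.Γ := by
  obtain ⟨L, hfd, hlt, hmem⟩ := h.low_field
  obtain ⟨W, hW1, hW2⟩ := h.exists_W hσ L hmem
  obtain ⟨e, he0, he1, he2⟩ := h.cont.tors L hlt W hW1 ⟨a, (hmem _).2 a.2⟩
    (fun h => ha (Subtype.ext (congrArg (fun z : L => (z : Ω)) h)))
  rw [hW2 _ a rfl, h.Γ₁] at he2
  exact ⟨e, he0, he1.trans_lt hlt, he2⟩

end ZD

/-- Integral combinations of a basis. -/
theorem basis_inj {u : Fin r → 𝕂} (hu : LinearIndependent ℚ u) {a b : Fin r → ℤ}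
    (h : ∑ j, (a j : 𝕂) * u j = ∑ j, (b j : 𝕂) * u j) : a = b := by
  have h1 : ∑ j, ((a j - b j : ℤ) : ℚ) • u j = 0 := by
    have h2 : ∀ j, ((a j - b j : ℤ) : ℚ) • u j = (a j : 𝕂) * u j - (b j : 𝕂) * u j := by
      intro j
      rw [Rat.smul_def]
      push_cast
      ring
    rw [Finset.sum_congr rfl fun j _ => h2 j, Finset.sum_sub_distrib, h, sub_self]
  have h2 := Fintype.linearIndependent_iff.1 hu _ h1
  funext j
  have h3 := h2 j
  have h4 : a j - b j = 0 := by exact_mod_cast h3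
  omega

/-- **Row T2.** -/
theorem ZD.ts0 [hp : Fact p.Prime] [CharP Ω p] (hk : ∀ c : k, ∃ d : k, d ^ p = c)
    [FiniteDimensional K N] [IsGalois K N] (h : ZD p n B B₁ hR N H w u) :
    TS0 p (kS (fixO K N (DP v B.R N hR.frac.1 ⊓ H)))
      (CS (AH v B.R (DP v B.R N hR.frac.1 ⊓ H)) (fixO K N (DP v B.R N hR.frac.1 ⊓ H)))
      (mS v (AH v B.R (DP v B.R N hR.frac.1 ⊓ H)) (fixO K N (DP v B.R N hR.frac.1 ⊓ H)))
      (fun i => ⟨B.χ (u i), h.x_mem_K i⟩) (fun j => ⟨B.y j, ZD.y_mem_K B hR _ j⟩) u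
      (fun σ : DP v B.R N hR.frac.1 => WS w _ (fixO_le_N _) (σ : N ≃ₐ[K] N)) := by
  classical
  have hxR : ∀ i, B.χ (u i) ∈ B.R := fun i => B.χ_mem _ (h.basis.mem i) (h.basis.pos i).le
  have hxA : ∀ i, B.χ (u i) ∈ AH v B.R (DP v B.R N hR.frac.1 ⊓ H) := fun i =>
    le_AH hR.frac.1 _ (hxR i)
  have hX0 : (∏ i, B.χ (u i)) ≠ 0 := Finset.prod_ne_zero_iff.2 fun i _ => B.χ_ne _ (h.basis.mem i)
  have hge : ∀ a ∈ AH v B.R (DP v B.R N hR.frac.1 ⊓ H), v.Ge 0 a := fun a ha =>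
    ALLZO.CN_nonneg hR.nonneg a (mem_AH.1 ha).1
  have hInX : ∀ a : fixO K N (DP v B.R N hR.frac.1 ⊓ H), InX
      (CS (AH v B.R (DP v B.R N hR.frac.1 ⊓ H)) (fixO K N (DP v B.R N hR.frac.1 ⊓ H)))
      (fun i => ⟨B.χ (u i), h.x_mem_K i⟩) a ↔
      ∃ M : ℕ, (∏ i, B.χ (u i)) ^ M * (a : Ω) ∈ AH v B.R (DP v B.R N hR.frac.1 ⊓ H) := by
    intro a
    refine exists_congr fun M => ?_
    rw [mem_CS]
    have : (((∏ i, (⟨B.χ (u i), h.x_mem_K i⟩ : fixO K N (DP v B.R N hR.frac.1 ⊓ H))) ^ M * a :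
        fixO K N (DP v B.R N hR.frac.1 ⊓ H)) : Ω) = (∏ i, B.χ (u i)) ^ M * (a : Ω) := by
      push_cast
      rfl
    rw [this]
  have hmmx : ∀ (i : Fin r → Fin p) (α : Fin D → Fin p),
      ((ymon (fun i => (⟨B.χ (u i), h.x_mem_K i⟩ : fixO K N (DP v B.R N hR.frac.1 ⊓ H))) (nv i) *
        ymon (fun j => (⟨B.y j, ZD.y_mem_K B hR _ j⟩ : fixO K N (DP v B.R N hR.frac.1 ⊓ H)))
          (nv α) : fixO K N (DP v B.R N hR.frac.1 ⊓ H)) : Ω) =
        mm (fun i => B.χ (u i)) B.y (i, α) := by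
    intro i α
    unfold ymon nv mm
    push_cast
    rfl
  refine
    { k_le := ?_, k_inv := ?_, k_root := ?_, m_sub := ?_, m_add := ?_, m_mul := ?_, m_one := ?_,
      unit := ?_, res := ?_, frac := ?_, x_ne := ?_, x_mem := ?_, x_val := ?_, y_mem := ?_,
      W_ge := ?_, W_m := ?_, cut := ?_, coord := ?_, val := ?_, indep := ?_, tors := ?_,
      nil := ?_ }
  · rintro _ ⟨c, rfl⟩
    exact (AH v B.R (DP v B.R N hR.frac.1 ⊓ H)).algebraMap_mem c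
  · rintro _ ⟨c, rfl⟩
    exact ⟨c⁻¹, map_inv₀ _ _⟩
  · rintro _ ⟨c, rfl⟩
    obtain ⟨d, hd⟩ := hk c
    exact ⟨_, ⟨d, rfl⟩, by rw [← map_pow, hd]⟩
  · rintro a ⟨ha, -⟩
    exact ha
  · rintro a ⟨ha, ha'⟩ b ⟨hb, hb'⟩
    exact ⟨add_mem ha hb, TAO.VPos.add ha' hb'⟩
  · rintro a ha b ⟨hb, hb'⟩
    exact ⟨mul_mem ha hb, TAO.VPos.mul' (hge _ ha) hb'⟩
  · rintro ⟨-, h1⟩
    have := h1 one_ne_zero
    rw [show (((1 : fixO K N (DP v B.R N hR.frac.1 ⊓ H)) : Ω)) = 1 from rfl, v.map_one] at this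
    exact lt_irrefl _ this
  · intro a ha hm
    have h1 : ¬ VPos v (a : Ω) := fun h2 => hm ⟨ha, h2⟩
    unfold VPos at h1
    push Not at h1
    obtain ⟨ha0, hva⟩ := h1
    have hva' : v (a : Ω) = 0 := le_antisymm hva (hge _ ha ha0)
    rw [mem_CS]
    push_cast
    exact mem_AH.2 ⟨ALLZO.CN_inv (mem_AH.1 ha).1 ha0 hva', inv_mem (mem_AH.1 ha).2⟩
  · intro a ha
    obtain ⟨c, hc⟩ := ALLZO.Ctx0.residue h.d2ctx (hge _ ha)
    refine ⟨algebraMap k _ c, ⟨c, rfl⟩, ?_, ?_⟩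
    · exact sub_mem ha ((AH v B.R (DP v B.R N hR.frac.1 ⊓ H)).algebraMap_mem c)
    · exact hc
  · intro a
    obtain ⟨m, hm⟩ : ∃ m : N, (m : Ω) = a := ⟨⟨a, fixO_le_N _ _ a.2⟩, rfl⟩
    obtain ⟨c, hc, hc0, hint⟩ := ALLZO.exists_mul_int hR m
    have hcK : c ∈ fixO K N (DP v B.R N hR.frac.1 ⊓ H) :=
      base_mem_fixO hR.frac.1 _ (hR.frac.1 _ hc)
    have h1 : c * (a : Ω) ∈ CN v B.R N := by
      rw [← hm]
      exact ALLZO.intN_le_CN ⟨mul_mem (N.algebraMap_mem ⟨c, hR.frac.1 c hc⟩) m.2, hint⟩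
    refine ⟨⟨c * a, mul_mem hcK a.2⟩, mem_AH.2 ⟨h1, mul_mem hcK a.2⟩, ⟨c, hcK⟩,
      le_AH hR.frac.1 _ hc, fun h => hc0 (congrArg Subtype.val h), ?_⟩
    apply Subtype.ext
    push_cast
    field_simp
  · intro i h1
    exact B.χ_ne _ (h.basis.mem i) (congrArg Subtype.val h1)
  · exact fun i => hxA i
  · intro σ i
    have h1 : (⟨B.χ (u i), fixO_le_N _ _ (h.x_mem_K i)⟩ : N) =
        algebraMap K N ⟨B.χ (u i), hR.frac.1 _ (hxR i)⟩ := rfl
    rw [WS_apply]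
    change w (((σ : N ≃ₐ[K] N) ⟨B.χ (u i), fixO_le_N _ _ (h.x_mem_K i)⟩ : N) : Ω) = u i
    rw [h1, AlgEquiv.commutes]
    change w (B.χ (u i)) = u i
    rw [← h.χ₁ (h.basis.mem i)]
    exact h.cont.χ _ (by rw [h.Γ₁]; exact h.basis.mem i)
  · exact fun j => ⟨le_AH hR.frac.1 _ (B.y_mem j), fun _ => B.y_pos j⟩
  · intro σ a ha h0
    rw [WS_apply]
    refine h.w_ge σ.2 (a := ⟨a, fixO_le_N _ _ a.2⟩) ha fun h1 => h0 ?_
    have h2 := (map_eq_zero_iff (σ : N ≃ₐ[K] N) (σ : N ≃ₐ[K] N).injective).1 (Subtype.ext h1)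
    exact Subtype.ext (congrArg (fun z : N => (z : Ω)) h2)
  · intro σ a ha hw
    refine ⟨ha, ?_⟩
    by_cases h0 : a = 0
    · rw [h0]
      exact fun h => absurd rfl h
    refine h.w_pos σ.2 (a := ⟨a, fixO_le_N _ _ a.2⟩) ha fun _ => ?_
    have h1 := hw h0
    rw [WS_apply] at h1
    exact h1
  · intro a ha hw
    obtain ⟨M, hM⟩ := (hInX a).1 ha
    obtain ⟨m, hm, hm'⟩ := (mem_fixO K N _ _).1 a.2
    rw [mem_CS]
    refine mem_AH.2 ⟨?_, a.2⟩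
    rw [← hm]
    refine h.cut_aux hm' (M := M) (by rw [hm]; exact (mem_AH.1 hM).1) fun σ hσ => ?_
    have h1 := hw ⟨σ, hσ⟩
    intro h0
    have ha0 : a ≠ 0 := by
      rintro rfl
      apply h0
      have : m = 0 := Subtype.ext hm
      rw [this, _root_.map_zero]
      rfl
    have h2 := h1 ha0
    rw [WS_apply] at h2
    have h3 : (⟨a, fixO_le_N _ _ a.2⟩ : N) = m := Subtype.ext hm.symm
    rw [h3] at h2
    exact h2
  · intro a ha
    obtain ⟨c, hc, hc'⟩ := h.coord a ((hInX a).1 ha)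
    have hcK : ∀ μ, c μ ∈ fixO K N (DP v B.R N hR.frac.1 ⊓ H) := by
      intro μ
      obtain ⟨M, hM⟩ := hc μ
      have h1 : c μ = ((∏ i, B.χ (u i)) ^ M)⁻¹ * ((∏ i, B.χ (u i)) ^ M * c μ) := by
        rw [← mul_assoc, inv_mul_cancel₀ (pow_ne_zero _ hX0), one_mul]
      rw [h1]
      refine mul_mem (inv_mem (pow_mem (prod_mem fun i _ => h.x_mem_K i) _)) (mem_AH.1 hM).2
    refine ⟨fun i α => ⟨c (i, α), hcK _⟩, fun i α => (hInX _).2 (hc _), ?_⟩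
    apply Subtype.ext
    rw [hc', Fintype.sum_prod_type]
    push_cast
    refine Finset.sum_congr rfl fun i _ => Finset.sum_congr rfl fun α _ => ?_
    rw [← hmmx i α]
    push_cast
    rfl
  · intro σ τ c hc i α hci
    obtain ⟨L, hfd, hlt, hmem⟩ := h.low_field
    obtain ⟨W, hW1, hW2⟩ := h.exists_W σ.2 L hmem
    have hb1 : GoodBasis B₁.Γ ∅ u := by rw [h.Γ₁]; exact h.basis
    have hyL : ∀ j, B₁.y j = B.y j := fun j => by rw [h.same.y_eq]
    have h1 := h.cont.low u hb1 L hlt W hW1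
      (fun i => ⟨B.χ (u i), (hmem _).2 (h.x_mem_K i)⟩)
      (fun j => ⟨B.y j, (hmem _).2 (ZD.y_mem_K B hR _ j)⟩)
      (fun i => (h.χ₁ (h.basis.mem i)).symm) (fun j => (hyL j).symm)
      (fun μ => ⟨c μ.1 μ.2, (hmem _).2 (c μ.1 μ.2).2⟩) τ ?_ (i, α)
      (fun h => hci (Subtype.ext (congrArg (fun z : L => (z : Ω)) h)))
    · rw [hW2 _ (c i α) rfl] at h1
      exact h1
    · have heq : ((∑ μ : (Fin r → Fin p) × (Fin D → Fin p),
          mm (fun i => (⟨B.χ (u i), (hmem _).2 (h.x_mem_K i)⟩ : L))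
            (fun j => (⟨B.y j, (hmem _).2 (ZD.y_mem_K B hR _ j)⟩ : L)) μ *
            (⟨c μ.1 μ.2, (hmem _).2 (c μ.1 μ.2).2⟩ : L) ^ p : L) : Ω) =
          ((∑ i, ∑ α, ymon (fun i => (⟨B.χ (u i), h.x_mem_K i⟩ :
            fixO K N (DP v B.R N hR.frac.1 ⊓ H))) (nv i) *
            ymon (fun j => (⟨B.y j, ZD.y_mem_K B hR _ j⟩ :
              fixO K N (DP v B.R N hR.frac.1 ⊓ H))) (nv α) * c i α ^ p :
            fixO K N (DP v B.R N hR.frac.1 ⊓ H)) : Ω) := by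
        rw [Fintype.sum_prod_type]
        push_cast
        refine Finset.sum_congr rfl fun i _ => Finset.sum_congr rfl fun α _ => ?_
        have h3 := hmmx i α
        push_cast at h3
        rw [h3]
        congr 1
        unfold mm
        push_cast
        rfl
      intro h0
      rw [hW2 _ _ heq]
      exact hc fun h2 => h0 (Subtype.ext (heq.trans (by rw [h2]; rfl)))
  · intro σ c i hc0 hsum j
    obtain ⟨e, he0, hep, he⟩ := h.tors_aux σ.2 c hc0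
    obtain ⟨m, hm⟩ := h.basis.gen _ he
    have h1 : ∑ j, (((e : ℤ) * (i j : ℤ) : ℤ) : 𝕂) * u j = ∑ j, (((p : ℤ) * m j : ℤ) : 𝕂) * u j := by
      have h2 : ∑ j, (((e : ℤ) * (i j : ℤ) : ℤ) : 𝕂) * u j = (e : 𝕂) * ∑ j, (i j : 𝕂) * u j := by
        rw [Finset.mul_sum]
        refine Finset.sum_congr rfl fun j _ => ?_
        push_cast
        ring
      have h3 : ∑ j, (((p : ℤ) * m j : ℤ) : 𝕂) * u j = (p : 𝕂) * ∑ j, (m j : 𝕂) * u j := by
        rw [Finset.mul_sum]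
        refine Finset.sum_congr rfl fun j _ => ?_
        push_cast
        ring
      rw [h2, h3, ← hm, hsum]
      ring
    have h2 := congrFun (basis_inj h.basis.ind h1) j
    have h3 : (p : ℤ) ∣ (e : ℤ) * (i j : ℤ) := ⟨m j, h2⟩
    have h4 : p ∣ e * i j := by exact_mod_cast h3
    rcases (hp.out.dvd_mul).1 h4 with h5 | h5
    · exact absurd (Nat.le_of_dvd he0 h5) (not_le.2 hep)
    · exact h5
  · refine ⟨(p - 1).factorial, Nat.factorial_pos _, ?_, fun σ a ha => ?_⟩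
    · refine Nat.Coprime.symm ((Nat.Prime.coprime_iff_not_dvd hp.out).2 fun h1 => ?_)
      have := (hp.out.dvd_factorial).1 h1
      have := hp.out.pos
      omega
    · obtain ⟨e, he0, hep, he⟩ := h.tors_aux σ.2 a ha
      obtain ⟨q, hq⟩ : e ∣ (p - 1).factorial := Nat.dvd_factorial he0 (by omega)
      have h1 : (((p - 1).factorial : ℕ) : 𝕂) * WS w _ (fixO_le_N _) (σ : N ≃ₐ[K] N) a ∈ B.Γ := by
        have h2 : (((p - 1).factorial : ℕ) : 𝕂) * WS w _ (fixO_le_N _) (σ : N ≃ₐ[K] N) a =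
            q • ((e : 𝕂) * WS w _ (fixO_le_N _) (σ : N ≃ₐ[K] N) a) := by
          rw [hq, nsmul_eq_mul]
          push_cast
          ring
        rw [h2]
        exact B.Γ.nsmul_mem he _
      exact h.basis.gen _ h1
  · rintro a ⟨ha, hva⟩
    obtain ⟨m, hm, hm'⟩ := (mem_fixO K N _ _).1 a.2
    obtain ⟨d, hd, c, b, hc, hb, hcb⟩ := ALLZO.exists_pow_mem h.d2ctx hR
      (DP v B.R N hR.frac.1 ⊓ H) (a := m) (by rw [hm]; exact (mem_AH.1 ha).1) hm'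
      (by rw [hm]; exact hva)
    rw [hm] at hcb
    have hgen := fun i => B.gen (c i) (hc i).1 (hc i).2
    choose γ hγ hγ0 a' ha' b' hb' hgen using hgen
    have hbA : ∀ i, b i ∈ AH v B.R (DP v B.R N hR.frac.1 ⊓ H) := fun i => mem_AH.2 (hb i)
    have hsumA : ∀ j, ∑ i ∈ Finset.range d, b' i j * b i ∈
        AH v B.R (DP v B.R N hR.frac.1 ⊓ H) := fun j =>
      sum_mem fun i _ => mul_mem (le_AH hR.frac.1 _ (hb' i j)) (hbA i)
    refine ⟨d, fun j => ⟨∑ i ∈ Finset.range d, b' i j * b i, (mem_AH.1 (hsumA j)).2⟩,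
      fun j => hsumA j, fun σ => ?_⟩
    -- the remainder
    have hχA : ∀ i, B.χ (γ i) * (a' i * b i) ∈ AH v B.R (DP v B.R N hR.frac.1 ⊓ H) := fun i =>
      mul_mem (le_AH hR.frac.1 _ (B.χ_mem _ (hγ i) (hγ0 i).le))
        (mul_mem (le_AH hR.frac.1 _ (ha' i)) (hbA i))
    have hrem : (((a ^ d - ∑ j, (⟨B.y j, ZD.y_mem_K B hR _ j⟩ :
        fixO K N (DP v B.R N hR.frac.1 ⊓ H)) * ⟨∑ i ∈ Finset.range d, b' i j * b i,
          (mem_AH.1 (hsumA j)).2⟩ : fixO K N (DP v B.R N hR.frac.1 ⊓ H))) : Ω) =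
        ∑ i ∈ Finset.range d, B.χ (γ i) * (a' i * b i) := by
      push_cast
      rw [hcb]
      have h1 : ∑ j, B.y j * ∑ i ∈ Finset.range d, b' i j * b i =
          ∑ i ∈ Finset.range d, (∑ j, B.y j * b' i j) * b i := by
        simp only [Finset.mul_sum, Finset.sum_mul]
        rw [Finset.sum_comm]
        exact Finset.sum_congr rfl fun i _ => Finset.sum_congr rfl fun j _ => by ring
      rw [h1, ← Finset.sum_sub_distrib]
      refine Finset.sum_congr rfl fun i _ => ?_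
      rw [hgen i]
      ring
    -- its value
    let e : ℕ → N := fun i => ⟨B.χ (γ i) * (a' i * b i), ALLZO.CN_le _ (mem_AH.1 (hχA i)).1⟩
    have hpos : ∀ i, VPos w (((σ : N ≃ₐ[K] N) (e i) : N) : Ω) := by
      intro i
      have h1 : e i = algebraMap K N ⟨B.χ (γ i), hR.frac.1 _ (B.χ_mem _ (hγ i) (hγ0 i).le)⟩ *
          (⟨a' i * b i, ALLZO.CN_le _ (mem_AH.1 (mul_mem (le_AH hR.frac.1 _ (ha' i)) (hbA i))).1⟩ :
            N) := rfl
      rw [h1, map_mul, AlgEquiv.commutes]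
      push_cast
      refine TAO.VPos.mul (fun _ => ?_) (h.w_ge σ.2
        (mul_mem (le_AH hR.frac.1 _ (ha' i)) (hbA i)))
      change 0 < w (B.χ (γ i))
      rw [← h.χ₁ (hγ i), h.cont.χ _ (by rw [h.Γ₁]; exact hγ i)]
      exact hγ0 i
    have hsumpos : ∀ s : Finset ℕ, VPos w (((σ : N ≃ₐ[K] N) (∑ i ∈ s, e i) : N) : Ω) := by
      intro s
      induction s using Finset.induction_on with
      | empty =>
        rw [Finset.sum_empty, _root_.map_zero]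
        exact fun h => absurd rfl h
      | insert i s hi ih =>
        rw [Finset.sum_insert hi, map_add]
        push_cast
        exact TAO.VPos.add (hpos i) ih
    intro h0
    rw [WS_apply]
    have h1 : ∀ z : fixO K N (DP v B.R N hR.frac.1 ⊓ H),
        (z : Ω) = ∑ i ∈ Finset.range d, B.χ (γ i) * (a' i * b i) →
        (⟨z, fixO_le_N _ _ z.2⟩ : N) = ∑ i ∈ Finset.range d, e i := by
      intro z hz
      apply Subtype.ext
      rw [hz]
      push_cast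
      rfl
    rw [h1 _ hrem]
    refine hsumpos _ fun h2 => h0 ?_
    have h3 := (map_eq_zero_iff (σ : N ≃ₐ[K] N) (σ : N ≃ₐ[K] N).injective).1 (Subtype.ext h2)
    rw [← h1 _ hrem] at h3
    exact Subtype.ext (congrArg (fun z : N => (z : Ω)) h3)

end Pool.Agent.ALLG.H18
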