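import Pool.Agent.Lib.ALLG.Defs
import Pool.Agent.Lib.ALLZO.T4
import Pool.Agent.Lib.ALLG.A2b
import Pool.Agent.Lib.ALLG.ZTS
import Pool.Agent.Lib.ALLG.FRTame
import Pool.Agent.Lib.ALLG.Cont
import Pool.Agent.Lib.ALLG.ZDefs
import Pool.Agent.Lib.ALLG.A2

/-!
# TANK G: port of `Lib/ALLZO/T4.lean` to the frames `ALLG.FR` (no condition `full`)
-/

set_option autoImplicit false

namespace Pool.Agent.ALLG.H18

open Pool.Agent.ALLZO
open Pool.Agent.TAO (Ctx0)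
open Pool.Agent.ALLZO.H18
open Pool.Agent.TAO (OVal VPos val_add_vpos Ctx0)
open Pool.Agent.ALLO (locv)
open Pool.Agent.LU1 (FracIs fixO mem_fixO)

universe u w

variable {k Ω : Type u} [Field k] [Field Ω] [Algebra k Ω] {𝕂 : Type w} [Field 𝕂] [LinearOrder 𝕂]
  [IsStrictOrderedRing 𝕂] {v : OVal 𝕂 Ω} {r D : ℕ} {nn : ℕ}

theorem AX.same {B B₁ : FR k v r D} (h : B.Same B₁) {A : Subalgebra k Ω} {a : Ω} :
    AX B₁ A a ↔ AX B A a := by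
  constructor
  · rintro ⟨γ, hγ, h1⟩
    have hγ' : γ ∈ B.Γ := by rw [← h.Γ_eq]; exact hγ
    exact ⟨γ, hγ', by rw [← h.χ_eq γ hγ']; exact h1⟩
  · rintro ⟨γ, hγ, h1⟩
    exact ⟨γ, by rw [h.Γ_eq]; exact hγ, by rw [h.χ_eq γ hγ]; exact h1⟩

/-- `B.R = B.R[1/χ] ∩ {w ≥ 0}`. -/
theorem isCont_cut' {B : FR k v r D} {w : OVal 𝕂 Ω} (h : IsCont B w) {f : Ω} (hf : AX B B.R f)
    (h0 : f ≠ 0) (hw : 0 ≤ w f) : f ∈ B.R := by
  obtain ⟨γ, hγ, h1⟩ := hf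
  have hχ := B.χ_ne γ hγ
  have h2 : B.χ γ * f ≠ 0 := mul_ne_zero hχ h0
  have h3 : w (B.χ γ * f) = γ + w f := by rw [w.map_mul hχ h0, h.χ γ hγ]
  have h4 := h.val _ h1 h2
  have h5 := h.div _ h1 h2
  rw [h3] at h4 h5
  have h6 : w f ∈ B.Γ := by
    have := B.Γ.sub_mem h4 hγ
    rwa [add_sub_cancel_left] at this
  have h7 : f = B.χ (w f) * (B.χ γ * f / B.χ (γ + w f)) := by
    rw [B.χ_add γ hγ _ h6]
    have := B.χ_ne _ h6
    field_simp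
  rw [h7]
  exact B.R.mul_mem (B.χ_mem _ h6 hw) h5

variable {K : IntermediateField k Ω} {N : IntermediateField K Ω}
variable {p n : ℕ} {B B₁ : FR k v r D} {hR : NRing v K B.R} {H : Subgroup (N ≃ₐ[K] N)}
  {w : OVal 𝕂 Ω} {u : Fin r → 𝕂}

/-- The data of rows L4 and L5 from the conclusions of the tame toric theorem. -/
theorem ZD.wdata [hp : Fact p.Prime] [FiniteDimensional K N] (h : ZD p n B B₁ hR N H w u)
    (hA : A2C B w hR.frac.1 N H) : WData B hR N H B₁ w where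
  same := h.same
  R_eq := h.ring
  pos := ⟨u ⟨0, h.rpos⟩, by rw [h.same.Γ_eq]; exact h.basis.mem _, h.basis.pos _⟩
  chi := h.cont.χ
  cutR := fun f hf h0 hw => isCont_cut' h.cont.toIsCont hf h0 hw
  valF := by
    intro f hf hf0
    obtain ⟨a, ha, b, hb, hb0, rfl⟩ := (RD_nring (N := N) hR).frac.2 f hf
    have ha0 : a ≠ 0 := by rintro rfl; exact hf0 (zero_div _)
    rw [← h.ring] at ha hb
    rw [w.map_div ha0 hb0]
    exact B₁.Γ.sub_mem (h.cont.val a ha ha0) (h.cont.val b hb hb0)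
  posA := fun f hf h0 hw => hA.pos f hf (fun _ => hw) h0
  inv := fun σ hσ b hb hb0 => hA.val_eq σ hσ b ((mem_fixO K N _ _).2 ⟨b, rfl, hb⟩) hb0
  cut := fun a ha h0 hw => hA.cut a ((AX.same h.same).1 ha) fun _ => hw
  ge := fun a ha h0 => hA.w_ge a (mem_AH.1 ha).1 h0
  unit := by
    intro b hb hb0
    obtain ⟨a, ha0, h1, h2, h3⟩ := hA.unit b hb hb0
    exact ⟨a, ha0, (AX.same h.same).2 h1, (AX.same h.same).2 h2, h3⟩
  gen := by
    intro f hf hv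
    obtain ⟨b, hb, e, he, hep, hfe⟩ := hA.gen f hf hv
    exact ⟨b, hb, e, he, hep, by rw [h.same.y_eq]; exact hfe⟩
  krull := by
    intro a ha hn
    refine hA.krull a ha fun j => ?_
    rw [← h.same.y_eq]
    refine YJ.exists_YA (fun i => ?_) j a (hn j)
    exact h.cont.nonneg _ (B₁.y_mem i)
  tors := by
    obtain ⟨e, he, h1⟩ := hA.tors
    exact ⟨e, he, fun b hb hb0 => by rw [h.same.Γ_eq]; exact h1 b hb hb0⟩

/-- ROW T4: `A₂` is the ring of a frame. -/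
theorem exists_C2 [hp : Fact p.Prime] [CharP Ω p] (hk : ∀ c : k, ∃ d : k, d ^ p = c)
    [FiniteDimensional K N] [IsGalois K N] (h : ZD p n B B₁ hR N H w u)
    (hA : A2C B w hR.frac.1 N H) :
    ∃ C₂ : FR k v r D, C₂.R = AH v B.R (DP v B.R N hR.frac.1 ⊓ H) ∧
      (∀ γ, γ ∈ C₂.Γ ↔ ∃ a ∈ fixO K N (DP v B.R N hR.frac.1 ⊓ H), a ≠ 0 ∧ w a = γ) ∧
      C₂.y = B.y ∧ (∀ γ ∈ B.Γ, C₂.Un (B.χ γ / C₂.χ γ)) ∧
      ∀ γ ∈ C₂.Γ, AX B (AH v B.R (DP v B.R N hR.frac.1 ⊓ H)) (C₂.χ γ) ∧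
        AX B (AH v B.R (DP v B.R N hR.frac.1 ⊓ H)) (C₂.χ γ)⁻¹ ∧ w (C₂.χ γ) = γ := by
  have hW := ZD.wdata h hA
  have hc : Ctx0 k v n := h.ctx
  have hidx : (DP v B.R N hR.frac.1 ⊓ H).relIndex (DP v B.R N hR.frac.1) < p := by
    rw [Subgroup.inf_relIndex_left]
    exact h.idx
  obtain ⟨C, h1, h2, h3, h4, h5⟩ := (hW.tame p hc hidx).exists_FR
  refine ⟨C, h1, fun γ => ?_, by rw [h3, h.same.y_eq], ?_, ?_⟩
  · rw [h2]
    exact Iff.rfl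
  · intro γ hγ
    rw [← h.same.χ_eq γ hγ]
    exact h4 γ (by rw [h.same.Γ_eq]; exact hγ)
  · intro γ hγ
    rw [h2] at hγ
    obtain ⟨h6, h7, h8⟩ := h5 γ hγ
    exact ⟨(AX.same h.same).1 h6, (AX.same h.same).1 h7, h8⟩

end Pool.Agent.ALLG.H18
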