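import Pool.Agent.Lib.ALLG.Defs
import Pool.Agent.Lib.ALLZO.T5
import Pool.Agent.Lib.ALLG.ZTS
import Pool.Agent.Lib.ALLG.DescFrame
import Pool.Agent.Lib.ALLG.NFD
import Pool.Agent.Lib.ALLG.FRTame
import Pool.Agent.Lib.ALLG.ZDefs

/-!
# TANK G: port of `Lib/ALLZO/T5.lean` to the frames `ALLG.FR` (no condition `full`)
-/

set_option autoImplicit false

namespace Pool.Agent.ALLG.H18

open Pool.Agent.ALLZO
open Pool.Agent.TAO (Ctx0)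
open Pool.Agent.ALLZO.H18
open Pool.Agent.LU1 (FracIs fixO mem_fixO)
open Pool.Agent.TAO (OVal VPos)
open Pool.Agent.ALLO (ICl decP locv)
open Pool.Agent.ALLZO (NRing CN DP FD RD AH le_AH AX)

universe u w'

variable {k Ω : Type u} [Field k] [Field Ω] [Algebra k Ω] {𝕂 : Type w'} [Field 𝕂] [LinearOrder 𝕂]
  [IsStrictOrderedRing 𝕂] {v : OVal 𝕂 Ω} {D : ℕ}
variable {K : IntermediateField k Ω} {N : IntermediateField K Ω}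
variable {p n r : ℕ} {B B₁ : FR k v r D} {hR : NRing v K B.R} {H : Subgroup (N ≃ₐ[K] N)}
  {w : OVal 𝕂 Ω} {u : Fin r → 𝕂}

/-- ROW T5: the descent from `A₂` to `C = AH v B.R H`. -/
theorem exists_C [hp : Fact p.Prime] [CharP Ω p] (hk : ∀ c : k, ∃ d : k, d ^ p = c)
    [FiniteDimensional K N] [IsGalois K N] (h : ZD p n B B₁ hR N H w u)
    (hA : A2C B w hR.frac.1 N H) (C₂ : FR k v r D)
    (h1 : C₂.R = AH v B.R (DP v B.R N hR.frac.1 ⊓ H))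
    (h2 : ∀ γ, γ ∈ C₂.Γ ↔ ∃ a ∈ fixO K N (DP v B.R N hR.frac.1 ⊓ H), a ≠ 0 ∧ w a = γ)
    (h3 : C₂.y = B.y) (h4 : ∀ γ ∈ B.Γ, C₂.Un (B.χ γ / C₂.χ γ))
    (h5 : ∀ γ ∈ C₂.Γ, AX B (AH v B.R (DP v B.R N hR.frac.1 ⊓ H)) (C₂.χ γ) ∧
        AX B (AH v B.R (DP v B.R N hR.frac.1 ⊓ H)) (C₂.χ γ)⁻¹ ∧ w (C₂.χ γ) = γ) :
    ∃ C : FR k v r D, C.R = AH v B.R H ∧ C.Γ = C₂.Γ ∧ C.y = B.y ∧
      (∀ γ ∈ B.Γ, C.Un (B.χ γ / C.χ γ)) := by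
  have h0 : TAO.Ctx0 k v n := h.ctx
  have hχK : ∀ γ ∈ B.Γ, B.χ γ ∈ K := by
    intro γ hγ
    rcases le_total 0 γ with h0 | h0
    · exact hR.frac.1 _ (B.χ_mem γ hγ h0)
    · have h1 := K.inv_mem (hR.frac.1 _ (B.χ_mem (-γ) (B.Γ.neg_mem hγ) (by linarith)))
      rwa [ALLG.fr_χ_neg B hγ, inv_inv] at h1
  have hΓ : ∀ γ ∈ B.Γ, γ ∈ C₂.Γ := fun γ hγ =>
    (h2 γ).2 ⟨B.χ γ, base_mem_fixO hR.frac.1 _ (hχK γ hγ), B.χ_ne γ hγ, hA.w_χ γ hγ⟩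
  obtain ⟨C, hC1, hC2, -, -, hC5, hC6⟩ := ALLG.descend_core h0 B hR H C₂
    (fun f => by rw [h1]; exact Iff.rfl) hΓ h4 h3 w (fun γ hγ => (h5 γ hγ).2.2)
    (fun f hf => hA.w_ge f (by rw [h1] at hf; exact hf.1))
    (fun b _ hb hwb => by
      rw [h1] at hb ⊢
      exact hA.cut b hb hwb)
  refine ⟨C, ?_, hC2, hC6, hC5⟩
  rw [hC1]
  ext a
  exact ALLZO.mem_ICl_fixO h0 hR H

end Pool.Agent.ALLG.H18
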