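import Pool.Agent.Lib.ALLG.Defs

/-!
# TANK G: the structure `XD` over the frames `ALLG.FR`
-/

set_option autoImplicit false

namespace Pool.Agent.ALLG

open Pool.Agent.TAO (OVal VPos Ctx0)
open Pool.Agent.LU1 (FracIs fixO)
open Pool.Agent.ALLO (locv icl ICl decP)

universe u w

variable {k Ω : Type u} [Field k] [Field Ω] [Algebra k Ω]
  {𝕂 : Type w} [Field 𝕂] [LinearOrder 𝕂] [IsStrictOrderedRing 𝕂]

/-- What sections 1 - 4 give for a finite set `Z` of generators of `E`: `F` is a rational frame of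
`K ≤ E`, `N / K` a finite Galois extension containing `E = N^H`. -/
structure XD (v : OVal 𝕂 Ω) {r D : ℕ} (p : ℕ) (E : IntermediateField k Ω) (Z : Finset Ω)
    (F : FR k v r D) (K : IntermediateField k Ω) (N : IntermediateField K Ω)
    (H : Subgroup (N ≃ₐ[K] N)) (Q Q' : Ω) : Prop where
  rat : F.Rat
  frac : FracIs F.R K
  le : K ≤ E
  fix : fixO K N H = E
  /-- (X1) -/
  idx : H.relIndex (decP v F.R K N) < p
  /-- (X2) -/
  mono : ∀ z ∈ Z, F.MonoIn (ICl v F.R E) z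
  /-- (X2') -/
  den : ∀ f ∈ ICl v F.R E, ∃ a ∈ Algebra.adjoin k (Z : Set Ω), ∃ b ∈ Algebra.adjoin k (Z : Set Ω),
    F.MonoIn (ICl v F.R E) b ∧ f = a / b
  Q_mem : Q ∈ E
  Q_ne : Q ≠ 0
  Q_int : ∃ γ ∈ F.Γ, F.χ γ * Q ∈ ICl v F.R E
  /-- (X3) -/
  der : ∀ d : Derivation k E E, F.LogD d → ∀ f : E, (f : Ω) ∈ ICl v F.R E →
    ∃ γ ∈ F.Γ, F.χ γ * (Q * (d f : Ω)) ∈ ICl v F.R E
  Q'_mem : Q' ∈ N
  Q'_ne : Q' ≠ 0
  Q'_int : ∃ γ ∈ F.Γ, F.χ γ * Q' ∈ ICl v F.R (N.restrictScalars k)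
  /-- (X4) -/
  ord : ∃ F₁ : FR k v r D, F.Same F₁ ∧ F₁.R ≤ ICl v F.R (N.restrictScalars k) ∧
    ∃ κ, ∃ M < p, F₁.Ord (Q * Q') κ M

end Pool.Agent.ALLG
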