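import Pool.Agent.Lib.ALLG.Defs
import Pool.Agent.Lib.ALLZO.ZIdx

/-!
# TANK G: port of `Lib/ALLZO/ZIdx.lean` to the frames `ALLG.FR` (no condition `full`)
-/

set_option autoImplicit false

namespace Pool.Agent.ALLG.H18

open Pool.Agent.ALLZO
open Pool.Agent.TAO (Ctx0)
open Pool.Agent.ALLZO.H18
open Pool.Agent.ALLO (locv)
open Pool.Agent.LU1 (FracIs fixO mem_fixO)
open Pool.Agent.TAO (OVal VPos)
open Pool.Agent.ALLO (ICl decP)

universe u w'

variable {k Ω : Type u} [Field k] [Field Ω] [Algebra k Ω] {𝕂 : Type w'} [Field 𝕂] [LinearOrder 𝕂]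
  [IsStrictOrderedRing 𝕂] {v : OVal 𝕂 Ω} {r D : ℕ}
variable {K : IntermediateField k Ω} {N : IntermediateField K Ω} {H : Subgroup (N ≃ₐ[K] N)}

/-- ROW T7. -/
theorem idx_le [FiniteDimensional K N] {F F' : FR k v r D} (hF : F.Le F')
    (hK : ∀ f ∈ F'.R, f ∈ K) :
    H.relIndex (decP v F'.R K N) ≤ H.relIndex (decP v F.R K N) := by
  have hfin : Finite (N ≃ₐ[K] N) := inferInstance
  refine Subgroup.relIndex_le_of_le_right (decP_mono hF.le hK) ?_
  rw [Subgroup.relIndex]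
  exact Subgroup.index_ne_zero_of_finite

/-- The field of fractions of a refinement. -/
theorem frac_of_le {F F' : FR k v r D} (hF : F.Le F') (hK : FracIs F.R K) : FracIs F'.R K := by
  refine ⟨fun f hf => ?_, fun g hg => ?_⟩
  · obtain ⟨a, ha, b, hb, -, rfl⟩ := hF.den f hf
    exact div_mem (hK.1 a ha) (hK.1 b hb)
  · obtain ⟨a, ha, b, hb, hb0, rfl⟩ := hK.2 g hg
    exact ⟨a, hF.le ha, b, hF.le hb, hb0, rfl⟩

end Pool.Agent.ALLG.H18
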