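import Pool.Agent.Lib.ALLG.XD
import Pool.Agent.Lib.ALLZO.ZMain
import Pool.Agent.Lib.ALLG.ZA2
import Pool.Agent.Lib.ALLG.ZIdx
import Pool.Agent.Lib.ALLG.T2
import Pool.Agent.Lib.ALLG.T4
import Pool.Agent.Lib.ALLG.T5
import Pool.Agent.Lib.ALLG.ContP
import Pool.Agent.Lib.ALLG.CoordC
import Pool.Agent.Lib.ALLG.Norm
import Pool.Agent.Lib.ALLG.Beta
import Pool.Agent.Lib.ALLG.NFD
import Pool.Agent.Lib.ALLG.RDFrame
import Pool.Agent.Lib.ALLG.ZTS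
import Pool.Agent.Lib.ALLG.DescFrame

/-!
# TANK G: port of `Lib/ALLZO/ZMain.lean` to the frames `ALLG.FR` (no condition `full`)
-/

set_option autoImplicit false

namespace Pool.Agent.ALLG.H18

open Pool.Agent.ALLZO
open Pool.Agent.TAO (Ctx0)
open Pool.Agent.ALLZO.H18
open Pool.Agent.ALLO (locv)
open Pool.Agent.LU1 (FracIs fixO mem_fixO)
open Pool.Agent.TAO (OVal VPos)
open Pool.Agent.ALLO (ICl decP)
open Pool.Agent.ALLZO (GoodBasis NRing CN DP FD RD AH le_AH AX)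

universe u w'

variable {k Ω : Type u} [Field k] [Field Ω] [Algebra k Ω] {𝕂 : Type w'} [Field 𝕂] [LinearOrder 𝕂]
  [IsStrictOrderedRing 𝕂] {v : OVal 𝕂 Ω} {D : ℕ}
variable {K : IntermediateField k Ω} {N : IntermediateField K Ω} {n r : ℕ}

/-- **Block Z from the `p`-coordinates of `C[1/x]`**: `B` a frame of `K`, `N / K` finite Galois,
`E = N^H` with index `< p` in the decomposition group of the centre. -/
theorem z_coreB (p : ℕ) [hp : Fact p.Prime] [CharP k p] [IsAlgClosed Ω] (h : Ctx0 k v n)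
    (hr : 0 < r) (hn : n = r + D) {E : IntermediateField k Ω}
    [FiniteDimensional K N] [IsGalois K N] (H : Subgroup (N ≃ₐ[K] N)) {B : FR k v r D}
    (hfrac : FracIs B.R K) (hfix : fixO K N H = E) (hidx : H.relIndex (decP v B.R K N) < p)
    (hcC : ∀ u : Fin r → 𝕂, GoodBasis B.Γ ∅ u → ∀ a ∈ AH v B.R H,
      ∃ c : (Fin r → Fin p) × (Fin D → Fin p) → Ω,
        (∀ μ, ∃ M : ℕ, (∏ i, B.χ (u i)) ^ M * c μ ∈ AH v B.R H) ∧
        a = ∑ μ, mm (fun i => B.χ (u i)) B.y μ * c μ ^ p) :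
    ∃ C : FR k v r D, C.R = ICl v B.R E ∧ (∀ γ ∈ B.Γ, γ ∈ C.Γ) ∧
      (∀ γ ∈ B.Γ, C.Un (B.χ γ / C.χ γ)) ∧ C.y = B.y ∧
      ∀ γ ∈ C.Γ, ∃ e : ℕ, 0 < e ∧ e < p ∧ (e : 𝕂) * γ ∈ B.Γ := by
  classical
  have hcΩ : CharP Ω p := (Algebra.charP_iff k Ω p).1 inferInstance
  have hka : IsAlgClosed k := ALLZO.isAlgClosed_of_ctx h
  have hk : ∀ c : k, ∃ d : k, d ^ p = c := fun c => IsAlgClosed.exists_pow_nat_eq c hp.out.pos
  have hR : NRing v K B.R := ALLG.fr_NRing p h hk hr hn B hfrac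
  have h0 : TAO.Ctx0 k v n := h
  obtain ⟨B₁, hS, hB₁⟩ := ALLG.RD_frame h0 B hR N
  have hRD := ALLZO.RD_nring (N := N) hR
  obtain ⟨w, hw⟩ := exists_contP (p := p) h hr hn B₁ (F := FD v B.R N hR.frac.1)
    (by rw [hB₁]; exact hRD.frac)
  obtain ⟨u, hu⟩ := ALLG.fr_exists_basis h hr B ∅ (fun γ hγ => absurd hγ (Finset.notMem_empty γ))
  rw [Finset.coe_empty] at hu
  have hxR : (∏ i, B.χ (u i)) ∈ B.R :=
    B.R.prod_mem fun i _ => B.χ_mem _ (hu.mem i) (hu.pos i).le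
  have hx0 : (∏ i, B.χ (u i)) ≠ 0 := Finset.prod_ne_zero_iff.2 fun i _ => B.χ_ne _ (hu.mem i)
  have hidx' : H.relIndex (DP v B.R N hR.frac.1) < p := by
    rw [← ALLZO.decP_eq hR.frac.1]
    exact hidx
  have hZ : ZD p n B B₁ hR N H w u :=
    { ctx := h, rpos := hr, hn := hn, idx := hidx', same := hS, ring := hB₁, cont := hw,
      basis := hu
      coord := fun a ha => ALLZO.pcoord_A2 h0 hR H hxR hx0 (hcC u hu) a ha }
  have hA := hZ.a2c_of (hZ.ts0 hk)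
  obtain ⟨C₂, h1, h2, h3, h4, h5⟩ := exists_C2 hk hZ hA
  obtain ⟨C, c1, c2, c3, c4⟩ := exists_C hk hZ hA C₂ h1 h2 h3 h4 h5
  refine ⟨C, ?_, fun γ hγ => ?_, c4, c3, fun γ hγ => ?_⟩
  · rw [c1, ← hfix]
    ext a
    rw [ALLZO.mem_ICl_fixO h0 hR H]
    exact Iff.rfl
  · rw [c2, h2]
    refine ⟨B.χ γ, ?_, B.χ_ne γ hγ, hZ.w_χ γ hγ⟩
    rcases le_total 0 γ with h6 | h6
    · exact base_mem_fixO hR.frac.1 _ (hR.frac.1 _ (B.χ_mem γ hγ h6))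
    · have h7 := base_mem_fixO (N := N) hR.frac.1 (DP v B.R N hR.frac.1 ⊓ H)
        (hR.frac.1 _ (B.χ_mem (-γ) (B.Γ.neg_mem hγ) (by linarith)))
      rw [ALLG.fr_χ_neg B hγ] at h7
      have := inv_mem h7
      rwa [inv_inv] at this
  · rw [c2, h2] at hγ
    obtain ⟨a, ha, ha0, rfl⟩ := hγ
    exact hZ.tors_aux (σ := 1) (one_mem _) ⟨a, ha⟩ fun h8 => ha0 (congrArg Subtype.val h8)

/-- Block Z from the `p`-coordinates of `C[1/x]`, the index given for a smaller frame. -/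
theorem z_core (p : ℕ) [hp : Fact p.Prime] [CharP k p] [IsAlgClosed Ω] (h : Ctx0 k v n)
    (hr : 0 < r) (hn : n = r + D) {E : IntermediateField k Ω}
    [FiniteDimensional K N] [IsGalois K N] (H : Subgroup (N ≃ₐ[K] N)) {F F' : FR k v r D}
    (hfrac : FracIs F.R K) (hfix : fixO K N H = E) (hidx : H.relIndex (decP v F.R K N) < p)
    (hF : F.Le F')
    (hcC : ∀ u : Fin r → 𝕂, GoodBasis F'.Γ ∅ u → ∀ a ∈ AH v F'.R H,
      ∃ c : (Fin r → Fin p) × (Fin D → Fin p) → Ω,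
        (∀ μ, ∃ M : ℕ, (∏ i, F'.χ (u i)) ^ M * c μ ∈ AH v F'.R H) ∧
        a = ∑ μ, mm (fun i => F'.χ (u i)) F'.y μ * c μ ^ p) :
    ∃ C : FR k v r D, C.R = ICl v F'.R E ∧ (∀ γ ∈ F'.Γ, γ ∈ C.Γ) ∧
      (∀ γ ∈ F'.Γ, C.Un (F'.χ γ / C.χ γ)) ∧ C.y = F'.y ∧
      ∀ γ ∈ C.Γ, ∃ e : ℕ, 0 < e ∧ e < p ∧ (e : 𝕂) * γ ∈ F'.Γ := by
  have hfrac' : FracIs F'.R K := frac_of_le hF hfrac
  exact z_coreB p h hr hn H hfrac' hfix ((idx_le hF hfrac'.1).trans_lt hidx) hcC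

/-- **Block Z** (sections 6, 7) of PROJECT ALL, over the frames without `full`. -/
theorem zStmt (p : ℕ) [hp : Fact p.Prime] [CharP k p] [IsAlgClosed Ω] (h : Ctx0 k v n)
    (hr : 0 < r) (hn : n = r + D) {E : IntermediateField k Ω} {Z : Finset Ω}
    [FiniteDimensional K N] [IsGalois K N] {H : Subgroup (N ≃ₐ[K] N)} {F F' : FR k v r D}
    {Q Q' : Ω} (hX : XD v p E Z F K N H Q Q') (hF : F.Le F')
    (hm : F'.MonoIn (ICl v F'.R (N.restrictScalars k)) (Q * Q')) :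
    ∃ C : FR k v r D, C.R = ICl v F'.R E ∧ (∀ γ ∈ F'.Γ, γ ∈ C.Γ) ∧
      (∀ γ ∈ F'.Γ, C.Un (F'.χ γ / C.χ γ)) ∧ C.y = F'.y ∧
      ∀ γ ∈ C.Γ, ∃ e : ℕ, 0 < e ∧ e < p ∧ (e : 𝕂) * γ ∈ F'.Γ := by
  have hcΩ : CharP Ω p := (Algebra.charP_iff k Ω p).1 inferInstance
  have hka : IsAlgClosed k := ALLZO.isAlgClosed_of_ctx h
  have hk : ∀ c : k, ∃ d : k, d ^ p = c := fun c => IsAlgClosed.exists_pow_nat_eq c hp.out.pos
  have hfrac' : FracIs F'.R K := frac_of_le hF hX.frac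
  have hR : NRing v K F'.R := ALLG.fr_NRing p h hk hr hn F' hfrac'
  exact z_core p h hr hn H hX.frac hX.fix hX.idx hF fun u hu =>
    coordC hk h hr hn hX hF hm hR u hu

end Pool.Agent.ALLG.H18
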